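import Pool.Agent.S3.T.FlatC2
import Pool.Agent.S3.W2.Base23
import Pool.Agent.S3.Cl.J7U

/-!
# The data of the edges between an inner vertex with two half twists and one with at least three
-/

set_option autoImplicit false

namespace Pool.Agent.S3.T2

open Complex Pool.Agent.H25.RK Pool.Agent.S3.E
open Pool.Agent.S3.T (hR_t1 hT_t1 cast3)

variable {m : ℕ} {a : Fin (m + 1) → ℕ} {z : Fin (m + 1) → ℂ} {Φ : ℂ → ℂ → ℂ}

/-- The data of an open edge. -/
theorem oo_t2 (h : Zr (fun i => (a i : ℝ)) chL chR 1 z) (ha : ∀ i, 2 ≤ a i)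
    (hΦ : IsPhi Φ) (h0 : Φ 0 0 = c00) {n p : Fin (m + 1)}
    (hnp : chL n = some p ∨ chR n = some p) (cn : ¬ clo a n) (cp : ¬ clo a p) :
    OO Φ (th (z n).re (z n).im) (th (z p).re (z p).im) (xx (z n).re (z n).im)
      (xx (z p).re (z p).im) (bw (z n) (z p)) (bw (z p) (z n)) (vT a n) (vT a p) :=
  have hpn := h.N.symm n p hnp
  ⟨hΦ, h0, h.oppHyp hnp, h.split hnp, h.xxpos n, h.xxpos p, hT_t2 h ha n cn, hT_t2 h ha p cp,
    vT_V1 a n, vT_V1 a p, by rw [gdv_re_eq h]; exact hR_t2 h ha n cn,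
    by rw [gdv_re_eq h]; exact hR_t2 h ha p cp,
    by rw [gdv_eq_div h, gdv_eq_div h]; exact nl_t2 h ha hnp cn cp,
    by rw [gdv_eq_div h, gdv_eq_div h]; exact nl_t2 h ha hpn cp cn⟩

theorem tan2sq_lt (h : Zr (fun i => (a i : ℝ)) chL chR 1 z) (ha : ∀ i, 2 ≤ a i)
    {i : Fin (m + 1)} (ci : ¬ clo a i) (ei : a i = 2) :
    Real.tan (th (z i).re (z i).im) ^ 2 < 1 := by
  have q1 := tan2_lt h i ci ei
  have q3 := hT_t2 h ha i ci
  have q2 := Real.tan_pos_of_pos_of_lt_pi_div_two q3.pos q3.lt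
  nlinarith

/-- **The data of the edges 2 - (at least 3).** -/
theorem d23_of (h : Zr (fun i => (a i : ℝ)) chL chR 1 z) (ha : ∀ i, 2 ≤ a i)
    (hΦ : IsPhi Φ) (h0 : Φ 0 0 = c00) {n p : Fin (m + 1)}
    (hnp : chL n = some p ∨ chR n = some p) (cn : ¬ clo a n) (cp : ¬ clo a p) (en : a n = 2)
    (ep : 3 ≤ a p) : D23 Φ (th (z n).re (z n).im) (th (z p).re (z p).im) (xx (z n).re (z n).im)
      (xx (z p).re (z p).im) (bw (z n) (z p)) (bw (z p) (z n)) (a p) := by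
  have hpn := h.N.symm n p hnp
  have H := oo_t2 h ha hΦ h0 hnp cn cp
  have o1 := vok_of h ha (reC_of h ha) hnp cn cp
  have o2 := vok_of h ha (reC_of h ha) hpn cp cn
  have g1 := gdv_re_eq h n
  have g2 := gdv_re_eq h p
  rw [vT_two en] at H o1
  rw [vT_three (by omega)] at H o2
  refine ⟨H, j3_of h ha hnp cn cp en, tan2sq_lt h ha cn en, ?_, ?_, ?_, ep⟩
  · exact Cl.Zr.t3_nb2 h three_or (cast3 ep) hpn (cast2 en) (Cl.inner_of cn en)
  · rw [g1, ← en]; exact o1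
  · rw [g2]; exact o2

end Pool.Agent.S3.T2
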