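import Pool.Agent.S3.E.Rng
import Pool.Agent.S3.CritCfg
import Pool.Agent.S3.W.Far

/-!
# The ranges of the critical point of a chain with at least three twists at every open vertex
-/

set_option autoImplicit false

namespace Pool.Agent.S3.T

open Complex Pool.Agent.S3.E

variable {m : ℕ} {a : Fin (m + 1) → ℕ} {z : Fin (m + 1) → ℂ}

/-- A closed vertex is an end for its neighbour. -/
theorem isEnd2_of_clo {i k : Fin (m + 1)} (hik : chL i = some k ∨ chR i = some k) (hk : clo a k) :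
    E.Zr.IsEnd2 (fun i => (a i : ℝ)) chL chR k i := by
  rcases hik with e | e
  · obtain ⟨j, h1, h2⟩ := chL_eq_some.1 e
    rw [h1, h2]
    rw [h2] at hk
    exact end_left hk
  · obtain ⟨j, h1, h2⟩ := chR_eq_some.1 e
    rw [h1, h2]
    rw [h2] at hk
    exact end_right hk

theorem cast3 {i : Fin (m + 1)} (h : 3 ≤ a i) : (3 : ℝ) ≤ (fun i => (a i : ℝ)) i := by
  show (3 : ℝ) ≤ (a i : ℝ)
  exact_mod_cast h

theorem hR_t1 (h : Zr (fun i => (a i : ℝ)) chL chR 1 z) {i : Fin (m + 1)} (h3 : 3 ≤ a i) :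
    (z i).re / Real.pi < 13 / 40 := h.R3_lt' (cast3 h3)

theorem hT_t1 (h : Zr (fun i => (a i : ℝ)) chL chR 1 z) {i : Fin (m + 1)} (h3 : 3 ≤ a i) :
    th (z i).re (z i).im ≤ 27 / 50 := h.th3_le (cast3 h3)

theorem hG_t1 (h : Zr (fun i => (a i : ℝ)) chL chR 1 z) (ho : ∀ i, ¬ clo a i → 3 ≤ a i)
    {n p : Fin (m + 1)} (hnp : chL n = some p ∨ chR n = some p) (cp : ¬ clo a p) (e : a n = 3) :
    mu (bw (z n) (z p)) (a n) (13 / 40) ≤ 14 / 25 * Real.tan (th (z n).re (z n).im) := by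
  have h3 : (fun i => (a i : ℝ)) n = 3 := by
    show ((a n : ℕ) : ℝ) = 3
    rw [e]; norm_num
  have k := h.gain3 h3 hnp (cast3 (ho p cp)) (fun k hk => by
    by_cases c : clo a k
    · exact Or.inr (isEnd2_of_clo hk c)
    · exact Or.inl (cast3 (ho k c)))
  refine le_trans (le_of_eq ?_) k
  rw [e]
  unfold mu
  push_cast
  ring

end Pool.Agent.S3.T
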