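import Pool.Agent.S3.CritCfg
import Pool.Agent.S3.G.Vol

/-!
# The volume of the chain
-/

namespace Pool.Agent.S3.T

open Complex Pool.Agent.H25.RK Pool.Agent.S3.E Pool.Agent.H63.VC Pool.Agent.H63.GO
open scoped ComplexConjugate

variable {m : ℕ}

/-- The numbers of half twists, indexed by `ℕ`. -/
def aN (a : Fin (m + 1) → ℕ) (k : ℕ) : ℕ := if h : k < m + 1 then a ⟨k, h⟩ else 0

/-- The zero, indexed by `ℕ`. -/
noncomputable def zN (z : Fin (m + 1) → ℂ) (k : ℕ) : ℂ := if h : k < m + 1 then z ⟨k, h⟩ else 0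

/-- The left `q`. -/
noncomputable def qlN (z : Fin (m + 1) → ℂ) (k : ℕ) : ℂ :=
  if 1 ≤ k ∧ k ≤ m then qe (zN z k) (zN z (k - 1)) else 0

/-- The right `q`. -/
noncomputable def qrN (z : Fin (m + 1) → ℂ) (k : ℕ) : ℂ :=
  if k < m then qe (zN z k) (zN z (k + 1)) else 0

theorem Geo_aN (a : Fin (m + 1) → ℕ) {k : ℕ} (hk : k < m + 1) : aN a k = a ⟨k, hk⟩ := dif_pos hk

theorem Geo_zN (z : Fin (m + 1) → ℂ) {k : ℕ} (hk : k < m + 1) : zN z k = z ⟨k, hk⟩ := dif_pos hk

theorem Geo_qlN (z : Fin (m + 1) → ℂ) {k : ℕ} (hk : k < m) :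
    qlN z (k + 1) = qe (zN z (k + 1)) (zN z k) := by
  unfold qlN
  rw [if_pos ⟨by omega, by omega⟩, Nat.add_sub_cancel]

theorem Geo_qrN (z : Fin (m + 1) → ℂ) {k : ℕ} (hk : k < m) :
    qrN z k = qe (zN z k) (zN z (k + 1)) := if_pos hk

theorem Geo_nr {k : ℕ} (hk : k < m) :
    chR (m := m) ⟨k, by omega⟩ = some ⟨k + 1, by omega⟩ := chR_castSucc ⟨k, hk⟩

theorem Geo_nl {k : ℕ} (hk : k < m) :
    chL (m := m) ⟨k + 1, by omega⟩ = some ⟨k, by omega⟩ := chL_succ ⟨k, hk⟩

theorem map_aN (a : Fin (m + 1) → ℕ) : (List.range (m + 1)).map (aN a) = List.ofFn a := by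
  apply List.ext_getElem
  · simp
  · intro i h1 h2
    rw [List.getElem_map, List.getElem_range, List.getElem_ofFn]
    exact Geo_aN a _

/-- `φ < π/4` at every vertex. -/
theorem Geo_ph_lt {α : Fin (m + 1) → ℝ} {z : Fin (m + 1) → ℂ}
    (hz : Zr α chL chR 1 z) (i : Fin (m + 1)) :
    ph (z i).re (z i).im < Real.pi / 4 := by
  have hpi := Real.pi_gt_d2
  rcases hz.types i with h1 | ⟨h1, h2⟩ | ⟨h1, k, h2⟩
  · have := hz.ph_le' i (Or.inl h1)
    linarith
  · have := hz.ph_le' i (Or.inr h2)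
    linarith
  · rw [hz.ph_end h1 h2]
    have h3 : be 1 z (some k) = 1 * ph (z k).re (z k).im := rfl
    have h4 := hz.phpos k
    rw [h3]
    linarith

/-- The argument of `cos`. -/
theorem Geo_arg {α : Fin (m + 1) → ℝ} {z : Fin (m + 1) → ℂ}
    (hz : Zr α chL chR 1 z) (i : Fin (m + 1)) :
    -(Real.pi / 4) < (cos (z i)).arg ∧ (cos (z i)).arg < 0 := by
  have h1 := hz.pos i
  have h2 := cos_polar h1.1 h1.2.1
  have h3 := hz.phpos i
  have h4 := Geo_ph_lt hz i
  have h5 : 0 < ‖cos (z i)‖ := norm_pos_iff.2 (hz.cos_ne i)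
  have hpi := Real.pi_pos
  have h6 : (cos (z i)).arg = -ph (z i).re (z i).im := by
    rw [h2, ← ofReal_neg, Complex.arg_real_mul _ h5, Complex.arg_exp_mul_I,
      toIocMod_eq_self]
    constructor <;> linarith
  rw [h6]
  constructor <;> linarith

/-- The zero of the system of block E is a critical point in the sense of block G. -/
theorem crt_of_zr (hm : 1 ≤ m) {a : Fin (m + 1) → ℕ} (ha : ∀ i, 2 ≤ a i)
    {z : Fin (m + 1) → ℂ} (hz : Zr (fun i => (a i : ℝ)) chL chR 1 z) :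
    G.Crt m (aN a) (zN z) (qlN z) (qrN z) := by
  have hr : ∀ i, i < m → 0 < (qe (zN z i) (zN z (i + 1))).re ∧
      0 < (qe (zN z i) (zN z (i + 1))).im ∧ (qe (zN z i) (zN z (i + 1))).im < Real.pi / 2 := by
    intro i hi
    rw [Geo_zN z (by omega : i < m + 1), Geo_zN z (by omega : i + 1 < m + 1)]
    exact hz.qe_pos (Or.inr (Geo_nr hi))
  have hl : ∀ i, i < m → 0 < (qe (zN z (i + 1)) (zN z i)).re ∧
      0 < (qe (zN z (i + 1)) (zN z i)).im ∧ (qe (zN z (i + 1)) (zN z i)).im < Real.pi / 2 := by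
    intro i hi
    rw [Geo_zN z (by omega : i < m + 1), Geo_zN z (by omega : i + 1 < m + 1)]
    exact hz.qe_pos (Or.inl (Geo_nl hi))
  refine
    { hR := hm
      ha := ?_
      zre := ?_
      zim := ?_
      arg := ?_
      l0 := ?_
      rR := ?_
      sl := ?_
      sr := ?_
      lre := ?_
      lim := ?_
      rre := ?_
      rim := ?_
      eq := ?_ }
  · intro i hi
    rw [Geo_aN a (by omega : i < m + 1)]
    exact ha _
  · intro i hi
    rw [Geo_zN z (by omega : i < m + 1)]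
    exact ⟨(hz.pos _).1, (hz.pos _).2.1⟩
  · intro i hi
    rw [Geo_zN z (by omega : i < m + 1)]
    exact (hz.pos _).2.2
  · intro i hi
    rw [Geo_zN z (by omega : i < m + 1)]
    exact Geo_arg hz _
  · unfold qlN
    rw [if_neg (by omega)]
  · unfold qrN
    rw [if_neg (by omega)]
  · intro i hi
    rw [Geo_qlN z hi, Geo_zN z (by omega : i < m + 1), Geo_zN z (by omega : i + 1 < m + 1)]
    have h1 := hz.pos ⟨i, by omega⟩
    have h2 := hz.pos ⟨i + 1, by omega⟩
    rw [qe_eq h2.1 h2.2.1 h2.2.2 h1.1 h1.2.1 h1.2.2, sinh_arsh]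
  · intro i hi
    rw [Geo_qrN z hi, Geo_zN z (by omega : i < m + 1), Geo_zN z (by omega : i + 1 < m + 1)]
    have h1 := hz.pos ⟨i, by omega⟩
    have h2 := hz.pos ⟨i + 1, by omega⟩
    rw [qe_eq h1.1 h1.2.1 h1.2.2 h2.1 h2.2.1 h2.2.2, sinh_arsh]
  · intro i hi
    rw [Geo_qlN z hi]
    exact (hl i hi).1
  · intro i hi
    rw [Geo_qlN z hi]
    exact (hl i hi).2
  · intro i hi
    rw [Geo_qrN z hi]
    exact (hr i hi).1
  · intro i hi
    rw [Geo_qrN z hi]
    exact (hr i hi).2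
  · intro i hi
    have h1 := hz.vertex ⟨i, by omega⟩
    have h2 : (((a ⟨i, by omega⟩ : ℕ) : ℝ) : ℂ) = (aN a i : ℂ) := by
      rw [Geo_aN a (by omega : i < m + 1)]
      push_cast
      rfl
    rw [h2] at h1
    have h3 : qo z ⟨i, by omega⟩ (chL ⟨i, by omega⟩) = qlN z i := by
      rcases Nat.eq_zero_or_pos i with h0 | h0
      · subst h0
        have e1 : chL (m := m) ⟨0, by omega⟩ = none := rfl
        rw [e1]
        unfold qlN
        rw [if_neg (by omega)]
        rfl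
      · obtain ⟨k, rfl⟩ : ∃ k, i = k + 1 := ⟨i - 1, by omega⟩
        rw [Geo_nl (by omega : k < m), Geo_qlN z (by omega : k < m),
          Geo_zN z (by omega : k < m + 1), Geo_zN z (by omega : k + 1 < m + 1)]
        rfl
    have h4 : qo z ⟨i, by omega⟩ (chR ⟨i, by omega⟩) = qrN z i := by
      by_cases h0 : i < m
      · rw [Geo_nr h0, Geo_qrN z h0, Geo_zN z (by omega : i < m + 1),
          Geo_zN z (by omega : i + 1 < m + 1)]
        rfl
      · have h5 : i = m := by omega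
        subst h5
        have e1 : chR (m := i) ⟨i, by omega⟩ = none := chR_last
        rw [e1]
        unfold qrN
        rw [if_neg h0]
        rfl
    rw [h3, h4] at h1
    rw [Geo_zN z (by omega : i < m + 1)]
    exact h1

/-- The critical value as a sum. -/
theorem cfg_V {a : Fin (m + 1) → ℕ} {σ : Fin (m + 1) → ℤ} {z : Fin (m + 1) → ℂ} :
    (cfgOf a σ z).V (cp (cfgOf a σ z).ac (cfgOf a σ z).bc) =
      G.Wc (cfgOf a σ z).r (cfgOf a σ z).Op (cfgOf a σ z).s (cfgOf a σ z).yc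
        (cfgOf a σ z).vc := by
  unfold Cfg.V G.Wc
  rw [add_comm]
  congr 1
  · refine Finset.sum_congr rfl fun j _ => ?_
    rw [Cfg.Hess_Yz0, Cfg.Hess_slz0, Cfg.Hess_slz0]
    rfl
  · have h1 : ∀ i : (cfgOf a σ z).Op, wr ((cfgOf a σ z).r i)
        (gdv ((cp (cfgOf a σ z).ac (cfgOf a σ z).bc) (Sum.inl i))) =
          wr ((cfgOf a σ z).r i) ((cfgOf a σ z).vc i) := by
      intro i
      rfl
    rw [Finset.sum_congr rfl fun i _ => h1 i]
    exact Finset.sum_coe_sort (cfgOf a σ z).Op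
      (fun i => wr ((cfgOf a σ z).r i) ((cfgOf a σ z).vc i))

/-- The critical point in `y`. -/
theorem Geo_exp_yy {z w : ℂ} (hw : 0 < w.re ∧ w.re < Real.pi / 2 ∧ 0 < w.im)
    (h : Reg (E.uu z) (conj (E.uu w))) :
    exp (2 * Real.pi * I * yy (E.uu z) (conj (E.uu w))) = G.Yy (conj (cos w)) (cosh (qe z w)) := by
  have e1 : qe z w = qq (E.uu z) (conj (E.uu w)) := by
    unfold qe E.uu
    rw [UU_conj]
  have h1 := cosh_uu hw.1 hw.2.1 hw.2.2
  have hc : cos w ≠ 0 := by
    intro h0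
    rw [h0, mul_zero] at h1
    exact zero_ne_one h1
  have hc' : conj (cos w) ≠ 0 := by rwa [Ne, map_eq_zero]
  have h2 : cosh (conj (E.uu w)) * conj (cos w) = 1 := by
    rw [← conj_cosh', ← map_mul, h1, map_one]
  have h4 : tan (Real.pi * yy (E.uu z) (conj (E.uu w))) = cosh (qe z w) / conj (cos w) := by
    rw [tan_eq_sin_div_cos, sin_yy h, mul_div_cancel_right₀ _ (cos_yy_ne h), e1, cosh_qq h,
      div_div, h2, div_one]
  have h5 := G.Yy_tan _ _ _ (cos_yy_ne h) hc' h4
  rw [← h5]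
  congr 1
  ring

theorem Geo_r_neg {a : Fin (m + 1) → ℕ} {σ : Fin (m + 1) → ℤ} {z : Fin (m + 1) → ℂ}
    {i : Fin (m + 1)} (ha : 2 ≤ a i) (hσ : σ i = 1 ∨ σ i = -1) :
    (cfgOf a σ z).r i < 0 ↔ σ i = -1 := by
  have ha' : (2 : ℝ) ≤ (a i : ℝ) := by exact_mod_cast ha
  change (σ i : ℝ) * a i / 2 < 0 ↔ _
  rcases hσ with h | h <;> rw [h]
  · constructor
    · intro h1
      push_cast at h1
      linarith
    · intro h1
      norm_num at h1
  · constructor
    · intro _
      rfl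
    · intro _
      push_cast
      linarith

/-- The volume is the real part of the critical value. -/
theorem cfg_vol (hm : 1 ≤ m) {a : Fin (m + 1) → ℕ} {σ : Fin (m + 1) → ℤ} {z : Fin (m + 1) → ℂ}
    (hz : Zr (fun i => (a i : ℝ)) chL chR 1 z) (ha : ∀ i, 2 ≤ a i)
    (hσ : ∀ i, σ i = 1 ∨ σ i = -1) (hs : ∀ j : Fin m, σ j.succ = -σ j.castSucc)
    (h2 : ∀ j : Fin m, ¬ (clo a j.castSucc ∧ clo a j.succ)) :
    IsGreatest (structureVolumes (List.ofFn a))
      (2 * Real.pi * ((cfgOf a σ z).V (cp (cfgOf a σ z).ac (cfgOf a σ z).bc)).re) := by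
  rw [cfg_V, ← map_aN]
  have hC := crit hm hz ha hσ hs h2
  have hcrt := crt_of_zr hm ha hz
  refine hcrt.vol _ _ _ _ _ ?_ ?_ ?_ ?_ ?_
  · refine
      { yre := ?_
        dom := ?_
        ey := ?_
        ev := ?_ }
    · intro j
      have h1 := (hC.dom j).1
      have h3 : 0 < ((cfgOf a σ z).yc j).re ∧ ((cfgOf a σ z).yc j).re < 1 / 2 := by
        unfold Cfg.slc at h1
        split_ifs at h1
        · exact ⟨h1.1, h1.2.1⟩
        · exact h1
      exact ⟨by linarith [h3.1], h3.2⟩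
    · intro j i hi hj
      rcases hj with rfl | rfl
      · have h1 := (hC.dom j).1
        unfold Cfg.slc at h1
        rw [if_pos hi] at h1
        exact h1.2.2
      · have h1 := (hC.dom j).2
        unfold Cfg.slc at h1
        rw [if_pos hi] at h1
        exact h1.2.2
    · intro j
      have h1 := hC.hy j
      have h3 : ∀ (y : ℂ) (τ : Sl), G.dsP y τ = ey y τ := by
        intro y τ
        cases τ <;> rfl
      rw [h3, h3]
      have h4 : ∀ i, G.slv (cfgOf a σ z).Op (cfgOf a σ z).s (cfgOf a σ z).vc i =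
          (cfgOf a σ z).slc i := fun i => rfl
      rw [h4, h4, h1, zero_im]
    · intro i hi
      have h1 := hC.hv i hi
      have h3 := congrArg Complex.im h1
      rw [zero_im] at h3
      exact h3
  · intro j
    change ((σ j.castSucc : ℝ) * a j.castSucc / 2) * ((σ j.succ : ℝ) * a j.succ / 2) < 0
    have h1 : (2 : ℝ) ≤ (a j.castSucc : ℝ) := by exact_mod_cast ha j.castSucc
    have h3 : (2 : ℝ) ≤ (a j.succ : ℝ) := by exact_mod_cast ha j.succ
    have h5 : (0 : ℝ) < (a j.castSucc : ℝ) * (a j.succ : ℝ) := by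
      apply mul_pos <;> linarith
    rw [hs j]
    rcases hσ j.castSucc with h6 | h6 <;> rw [h6] <;> push_cast <;> nlinarith
  · intro i hi
    have h1 : clo a i := by
      by_contra h3
      exact hi (mem_Op.2 h3)
    refine ⟨by rw [Geo_aN a i.isLt]; exact h1.1, ?_⟩
    rcases h1.2 with h3 | h3
    · left
      rw [h3]
      rfl
    · right
      rw [h3]
      rfl
  · intro i hi
    have hpi : (Real.pi : ℂ) ≠ 0 := by exact_mod_cast Real.pi_ne_zero
    have hN : zN z i = z i := Geo_zN z i.isLt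
    rw [hN]
    rcases hσ i with h1 | h1
    · have h3 : ¬ (cfgOf a σ z).r i < 0 := by
        rw [Geo_r_neg (ha i) (hσ i), h1]
        norm_num
      have h4 : (cfgOf a σ z).vc i = -(conj (z i)) / Real.pi := by
        unfold Cfg.vc
        rw [uc_pos h1]
        exact (hz.gdv_uu i).2
      rw [if_neg h3, h4, ← Complex.exp_conj]
      congr 1
      rw [map_mul, map_mul, conj_I]
      have h5 : conj (2 : ℂ) = 2 := Complex.conj_ofNat 2
      rw [h5]
      field_simp
    · have h4 : (cfgOf a σ z).vc i = z i / Real.pi := by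
        unfold Cfg.vc
        rw [uc_neg h1]
        exact (hz.gdv_uu i).1
      rw [if_pos ((Geo_r_neg (ha i) (hσ i)).2 h1), h4]
      congr 1
      field_simp
  · intro j
    have hj := j.isLt
    have hN : zN z j = z j.castSucc := Geo_zN z (by omega)
    have hN' : zN z (j + 1) = z j.succ := Geo_zN z (by omega)
    rw [yc_eq]
    by_cases h1 : σ j.castSucc = -1
    · rw [if_pos h1, if_pos ((Geo_r_neg (ha _) (hσ _)).2 h1),
        Geo_exp_yy (hz.pos _) (hz.reg_edge (Or.inr (chR_castSucc j)))]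
      unfold G.Yr
      rw [Geo_qrN z hj, hN, hN']
    · rw [if_neg h1, if_neg (fun h3 => h1 ((Geo_r_neg (ha _) (hσ _)).1 h3)),
        Geo_exp_yy (hz.pos _) (hz.reg_edge (Or.inl (chL_succ j))),
        ← eq_inv_of_mul_eq_one_left (hcrt.Y_rel j hj)]
      unfold G.Yl
      rw [Geo_qlN z hj, hN, hN']

end Pool.Agent.S3.T
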