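import Pool.Agent.S3.CV.Defs
import Pool.Agent.S3.FinL
import Pool.Agent.S3.JLim
import Pool.Agent.S3.Ks5
import Pool.Agent.S3.T.Geo

/-!
# The asymptotics of Kashaev's invariant of two-bridge links
-/

namespace Pool.Agent.S3.T

open Complex Pool.Agent.H25.RK Pool.Agent.S3.E Pool.Agent.H63.VC Pool.Agent.H63.GO
open Pool.Agent.H63.VC7 Pool.Agent.H63.VC10 Filter Topology
open scoped ComplexConjugate

variable {m : ℕ}

/-- The alternating signs, `ε` at the vertex `0`. -/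
def sgn (ε : ℤ) (i : Fin (m + 1)) : ℤ := ε * (-1) ^ (i : ℕ)

theorem sgn_or {ε : ℤ} (hε : ε = 1 ∨ ε = -1) (i : Fin (m + 1)) : sgn ε i = 1 ∨ sgn ε i = -1 := by
  unfold sgn
  rcases neg_one_pow_eq_or ℤ (i : ℕ) with h | h <;> rcases hε with rfl | rfl <;> rw [h] <;> simp

theorem sgn_succ (ε : ℤ) (j : Fin m) : sgn ε j.succ = -sgn ε j.castSucc := by
  unfold sgn
  rw [Fin.val_succ, Fin.val_castSucc, pow_succ]
  ring

/-- What is known about the rest of the state sum. -/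
def LowOK (a : Fin (m + 1) → ℕ) (σ : Fin (m + 1) → ℤ) (z : Fin (m + 1) → ℂ) : Prop :=
  ∃ δ : ℝ, 0 < δ ∧ ∃ (K : ℝ) (p : ℕ), ∀ᶠ M : ℕ in atTop,
    ‖JG (Fin.castSucc (n := m)) Fin.succ (cfgOf a σ z).r M - J0 (cfgOf a σ z).r M‖ ≤
      K * (M : ℝ) ^ p *
        Real.exp (M * (((cfgOf a σ z).V (cp (cfgOf a σ z).ac (cfgOf a σ z).bc)).re - δ))

/-- The complex volume of the chain. -/
def CVOK (a : Fin (m + 1) → ℕ) (ε : ℤ) (z : Fin (m + 1) → ℂ) : Prop :=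
  ∃ Z : ℂ, CV.IsComplexVolume (List.ofFn a) (decide (ε = -1)) Z ∧ ∃ k : ℤ,
    Z = 2 * Real.pi * I *
        (cfgOf a (sgn ε) z).V (cp (cfgOf a (sgn ε) z).ac (cfgOf a (sgn ε) z).bc) +
      (Real.pi : ℂ) ^ 2 / 2 * (∑ i, ((sgn ε i * a i : ℤ) : ℂ)) + k * (Real.pi : ℂ) ^ 2

theorem inc_closed (hm : 1 ≤ m) {a : Fin (m + 1) → ℕ} {i : Fin (m + 1)} (h : clo a i) :
    ∃ j, inc (Fin.castSucc (n := m)) Fin.succ i = {j} := by
  rcases h.2 with h0 | h0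
  · refine ⟨⟨0, hm⟩, ?_⟩
    ext j
    simp only [inc, Finset.mem_filter, Finset.mem_univ, true_and, Finset.mem_singleton]
    rw [h0, Fin.ext_iff, Fin.ext_iff, Fin.ext_iff]
    simp only [Fin.val_castSucc, Fin.val_succ, Fin.val_zero]
    omega
  · refine ⟨⟨m - 1, by omega⟩, ?_⟩
    ext j
    simp only [inc, Finset.mem_filter, Finset.mem_univ, true_and, Finset.mem_singleton]
    rw [h0, Fin.ext_iff, Fin.ext_iff, Fin.ext_iff]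
    simp only [Fin.val_castSucc, Fin.val_succ, Fin.val_last]
    have := j.2
    omega

/-- The main theorem, from the estimates, with the critical value. -/
theorem main_core (hm : 1 ≤ m) {a : Fin (m + 1) → ℕ} (ha : ∀ i, 2 ≤ a i) {ε : ℤ}
    (hε : ε = 1 ∨ ε = -1) (h2 : ∀ j : Fin m, ¬ (clo a j.castSucc ∧ clo a j.succ))
    {z : Fin (m + 1) → ℂ} (hz : Zr (fun i => (a i : ℝ)) chL chR 1 z)
    {v1 : Fin (m + 1) → ℝ} {lam : Fin m → Fin (m + 1) → ℝ}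
    (hE : (cfgOf a (sgn ε) z).Edg v1 lam) (hlow : LowOK a (sgn ε) z) (e : ℤ) :
    ∃ V C : ℝ, IsGreatest (structureVolumes (List.ofFn a)) V ∧
      (∃ k : ℤ, I * (V + C * I) = 2 * Real.pi * I *
          (cfgOf a (sgn ε) z).V (cp (cfgOf a (sgn ε) z).ac (cfgOf a (sgn ε) z).bc) +
        (Real.pi : ℂ) ^ 2 / 2 * (∑ i, ((sgn ε i * a i : ℤ) : ℂ)) + k * (Real.pi : ℂ) ^ 2) ∧
      ∃ J : ℕ → ℂ,
        (∀ N : ℕ, Tendsto (fun q => coloredJones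
          (diagram Fin.castSucc (fun i : Fin (m + 1) => ε * (-1) ^ (i : ℕ) * (a i : ℤ))) e N q)
          (𝓝[≠] exp (Real.pi * I / ((N + 1 : ℕ) : ℂ))) (𝓝 (J N))) ∧
        (∃ L : ℕ → ℂ, (∀ᶠ N : ℕ in atTop, exp (L N) = J N) ∧
          Tendsto (fun N : ℕ => 2 * (Real.pi : ℂ) * L N / (N + 1)) atTop (𝓝 (V + C * I))) ∧
        Tendsto (fun N : ℕ => 2 * (Real.pi : ℂ) * log (J N) / (N + 1)) atTop (𝓝 (V : ℂ)) ∧
        ∃ κ : ℂ, κ ≠ 0 ∧ Tendsto (fun N : ℕ => J N /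
          ((((N : ℝ) + 1) ^ (3 / 2 : ℝ) : ℝ) *
            exp ((N + 1) * (V + C * I) / (2 * Real.pi)))) atTop (𝓝 κ) := by
  have hσ := sgn_or (m := m) hε
  have hs := sgn_succ (m := m) ε
  set X := cfgOf a (sgn ε) z with hX
  have hC : X.Crit := crit hm hz ha hσ hs h2
  have hss : ∀ i, i ∉ X.Op → X.s i = 1 ∨ X.s i = -1 := fun i _ => hσ i
  have hclo : ∀ i, i ∉ X.Op → clo a i := fun i hi => by
    by_contra h
    exact hi (mem_Op.2 h)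
  have hr : ∀ i, i ∉ X.Op → X.r i = X.s i := by
    intro i hi
    have h1 := (hclo i hi).1
    show (sgn ε i : ℝ) * a i / 2 = sgn ε i
    rw [h1]
    push_cast
    ring
  have hinc : ∀ i, i ∉ X.Op → ∃ j, inc (Fin.castSucc (n := m)) Fin.succ i = {j} :=
    fun i hi => inc_closed hm (hclo i hi)
  obtain ⟨κ0, hκ0, hJ0⟩ := Cfg.J0_lim ksB ksL hC hss hr hinc hE
  have hJG := FinL_JG X.r _ X.Op.card hJ0 hlow
  set c : Fin (m + 1) → ℤ := fun i => ε * (-1) ^ (i : ℕ) * (a i : ℤ) with hc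
  have hrc : X.r = fun i => (c i : ℝ) / 2 := by
    funext i
    show (sgn ε i : ℝ) * a i / 2 = (c i : ℝ) / 2
    rw [hc]
    unfold sgn
    push_cast
    ring
  rw [hrc] at hJG
  obtain ⟨C, ⟨k, hk⟩, J, hJ, hL, hlog, κ, hκ, hlim⟩ := fin_of_lim c _ X.Op.card hκ0 hJG e
  have hsum : ∑ i, ((sgn ε i * a i : ℤ) : ℂ) = ∑ i, (c i : ℂ) := rfl
  exact ⟨_, C, cfg_vol hm hz ha hσ hs h2, ⟨k, by rw [hsum]; exact hk⟩, J, hJ, hL, hlog, κ, hκ,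
    hlim⟩

/-- The main theorem, from the estimates. -/
theorem main_of (hm : 1 ≤ m) {a : Fin (m + 1) → ℕ} (ha : ∀ i, 2 ≤ a i) {ε : ℤ}
    (hε : ε = 1 ∨ ε = -1) (h2 : ∀ j : Fin m, ¬ (clo a j.castSucc ∧ clo a j.succ))
    {z : Fin (m + 1) → ℂ} (hz : Zr (fun i => (a i : ℝ)) chL chR 1 z)
    {v1 : Fin (m + 1) → ℝ} {lam : Fin m → Fin (m + 1) → ℝ}
    (hE : (cfgOf a (sgn ε) z).Edg v1 lam) (hlow : LowOK a (sgn ε) z)
    (hcv : CVOK a ε z) (e : ℤ) :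
    ∃ V C : ℝ, IsGreatest (structureVolumes (List.ofFn a)) V ∧
      (∃ Z : ℂ, CV.IsComplexVolume (List.ofFn a) (decide (ε = -1)) Z ∧
        ∃ k : ℤ, Z = I * (V + C * I) + k * (Real.pi : ℂ) ^ 2) ∧
      ∃ J : ℕ → ℂ,
        (∀ N : ℕ, Tendsto (fun q => coloredJones
          (diagram Fin.castSucc (fun i : Fin (m + 1) => ε * (-1) ^ (i : ℕ) * (a i : ℤ))) e N q)
          (𝓝[≠] exp (Real.pi * I / ((N + 1 : ℕ) : ℂ))) (𝓝 (J N))) ∧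
        (∃ L : ℕ → ℂ, (∀ᶠ N : ℕ in atTop, exp (L N) = J N) ∧
          Tendsto (fun N : ℕ => 2 * (Real.pi : ℂ) * L N / (N + 1)) atTop (𝓝 (V + C * I))) ∧
        Tendsto (fun N : ℕ => 2 * (Real.pi : ℂ) * log (J N) / (N + 1)) atTop (𝓝 (V : ℂ)) ∧
        ∃ κ : ℂ, κ ≠ 0 ∧ Tendsto (fun N : ℕ => J N /
          ((((N : ℝ) + 1) ^ (3 / 2 : ℝ) : ℝ) *
            exp ((N + 1) * (V + C * I) / (2 * Real.pi)))) atTop (𝓝 κ) := by
  obtain ⟨V, C, hV, ⟨k, hk⟩, hJ⟩ := main_core hm ha hε h2 hz hE hlow e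
  obtain ⟨Z, hZ, k', hk'⟩ := hcv
  refine ⟨V, C, hV, ⟨Z, hZ, k' - k, ?_⟩, hJ⟩
  rw [hk', hk]
  push_cast
  ring

end Pool.Agent.S3.T
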