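import Pool.Agent.S3.CV.FinS
import Pool.Agent.S3.T.Main

/-!
# The complex volume at the critical point
-/

set_option autoImplicit false

namespace Pool.Agent.S3.T

open Complex Pool.Agent.H25.RK Pool.Agent.S3.E Pool.Agent.H63.VC Pool.Agent.H63.GO
open Pool.Agent.H63.VC7 Pool.Agent.H63.VC10 Filter Topology
open scoped ComplexConjugate

variable {m : ℕ}

theorem sgn_zero (ε : ℤ) : sgn (m := m) ε 0 = ε := by
  unfold sgn
  simp

/-- **The complex volume of the chain.** -/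
theorem cvOK (hm : 1 ≤ m) {a : Fin (m + 1) → ℕ} (ha : ∀ i, 2 ≤ a i) {ε : ℤ}
    (hε : ε = 1 ∨ ε = -1) {z : Fin (m + 1) → ℂ}
    (hz : Zr (fun i => (a i : ℝ)) chL chR 1 z) : CVOK a ε z := by
  obtain ⟨Z, hZ, k, hk⟩ := CV.cv_main hm hz ha (sgn_or (m := m) hε) (sgn_succ (m := m) ε)
  rw [sgn_zero] at hZ
  refine ⟨Z, hZ, k, ?_⟩
  rw [hk, cfg_V]
  congr 3
  refine Finset.sum_congr rfl fun i _ => ?_
  push_cast
  rfl

end Pool.Agent.S3.T
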