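import Pool.Agent.S3.T.Dat23
import Pool.Agent.S3.W2.Base22

/-!
# The data of the edges between two inner vertices with two half twists
-/

set_option autoImplicit false

namespace Pool.Agent.S3.T2

open Complex Pool.Agent.H25.RK Pool.Agent.S3.E

variable {m : ℕ} {a : Fin (m + 1) → ℕ} {z : Fin (m + 1) → ℂ} {Φ : ℂ → ℂ → ℂ}

/-- **The data of the edges 2 - 2.** -/
theorem d22_of (h : Zr (fun i => (a i : ℝ)) chL chR 1 z) (ha : ∀ i, 2 ≤ a i)
    (hΦ : IsPhi Φ) (h0 : Φ 0 0 = c00) {n p : Fin (m + 1)}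
    (hnp : chL n = some p ∨ chR n = some p) (cn : ¬ clo a n) (cp : ¬ clo a p) (en : a n = 2)
    (ep : a p = 2) : D22 Φ (th (z n).re (z n).im) (th (z p).re (z p).im) (xx (z n).re (z n).im)
      (xx (z p).re (z p).im) (bw (z n) (z p)) (bw (z p) (z n)) := by
  have hpn := h.N.symm n p hnp
  have H := oo_t2 h ha hΦ h0 hnp cn cp
  have o1 := vok_of h ha (reC_of h ha) hnp cn cp
  have o2 := vok_of h ha (reC_of h ha) hpn cp cn
  have g1 := gdv_re_eq h n
  have g2 := gdv_re_eq h p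
  rw [vT_two en] at H o1
  rw [vT_two ep] at H o2
  refine ⟨H, j3_of h ha hnp cn cp en, j3_of h ha hpn cp cn ep, tan2sq_lt h ha cn en,
    tan2sq_lt h ha cp ep, ?_, ?_⟩
  · rw [g1, ← en]; exact o1
  · rw [g2, ← ep]; exact o2

end Pool.Agent.S3.T2
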