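import Pool.Agent.S3.T.Main
import Pool.Agent.S3.Low6

/-!
# At least three half twists at every inner vertex
-/

set_option autoImplicit false

namespace Pool.Agent.S3.T

open Complex Pool.Agent.H25.RK Pool.Agent.S3.E Pool.Agent.H63.VC Pool.Agent.H63.GO
open Pool.Agent.H63.VC7 Pool.Agent.H63.VC10 Filter Topology
open scoped ComplexConjugate

variable {m : ℕ}

/-- The estimates at the critical point, for the potential `Φ` of the edges. -/
structure Hyp1 (Φ : ℂ → ℂ → ℂ) (a : Fin (m + 1) → ℕ) (z : Fin (m + 1) → ℂ) : Prop where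
  hR : ∀ i, ¬ clo a i → (z i).re / Real.pi < 13 / 40
  hT : ∀ i, ¬ clo a i → th (z i).re (z i).im ≤ 27 / 50
  hE : ∀ n p : Fin (m + 1), (chL n = some p ∨ chR n = some p) → ¬ clo a n → ¬ clo a p →
    EndAll Φ (th (z n).re (z n).im) (th (z p).re (z p).im) (xx (z n).re (z n).im)
      (xx (z p).re (z p).im) (bw (z n) (z p)) (bw (z p) (z n)) (13 / 40) (13 / 40)
      (mu (bw (z n) (z p)) (a n) (13 / 40)) (mu (bw (z p) (z n)) (a p) (13 / 40))
  hG : ∀ n p : Fin (m + 1), (chL n = some p ∨ chR n = some p) → ¬ clo a n → ¬ clo a p →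
    a n = 3 → mu (bw (z n) (z p)) (a n) (13 / 40) ≤ 14 / 25 * Real.tan (th (z n).re (z n).im)

/-- The data of the open-open edges. -/
theorem Hyp1.ood {Φ : ℂ → ℂ → ℂ} (hΦ : IsPhi Φ) (h0 : Φ 0 0 = c00) {a : Fin (m + 1) → ℕ}
    {σ : Fin (m + 1) → ℤ} {z : Fin (m + 1) → ℂ} (h : Zr (fun i => (a i : ℝ)) chL chR 1 z)
    (h3 : ∀ i, ¬ clo a i → 3 ≤ a i) (H : Hyp1 Φ a z) :
    OODall a σ z Φ (fun _ => 13 / 40) := by
  intro n p hnp cn cp _ _
  have tn := Ht_of (h.thpos n) (H.hT n cn)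
  have tp := Ht_of (h.thpos p) (H.hT p cp)
  have K : OO Φ (th (z n).re (z n).im) (th (z p).re (z p).im) (xx (z n).re (z n).im)
      (xx (z p).re (z p).im) (bw (z n) (z p)) (bw (z p) (z n)) (13 / 40) (13 / 40) :=
    ⟨hΦ, h0, h.oppHyp hnp, h.split hnp, h.xxpos n, h.xxpos p, tn, tp, V1_t, V1_t,
      by rw [gdv_re_eq h]; exact H.hR n cn, by rw [gdv_re_eq h]; exact H.hR p cp⟩
  refine ⟨tn, tp, H.hR n cn, H.hR p cp, flatAll_of tn tp K.ho.S le_rfl le_rfl,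
    flatC_of K le_rfl le_rfl, H.hE n p hnp cn cp, ?_, ?_⟩
  · rcases (h3 n cn).eq_or_lt with e | e
    · exact gainL_of' hΦ (H.hG n p hnp cn cp e.symm)
    · exact gainL_nonpos hΦ (mu_nonpos e (h.bw_pos hnp))
  · have hpn := h.N.symm n p hnp
    rcases (h3 p cp).eq_or_lt with e | e
    · exact gainR_of' hΦ (H.hG p n hpn cp cn e.symm)
    · exact gainR_nonpos hΦ (mu_nonpos e (h.bw_pos hpn))

theorem open_three {a : Fin (m + 1) → ℕ} (ha : ∀ i, 2 ≤ a i)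
    (h3 : ∀ i, i ≠ 0 → i ≠ Fin.last m → 3 ≤ a i) (i : Fin (m + 1)) (hi : ¬ clo a i) : 3 ≤ a i := by
  by_contra hc
  have h2 : a i = 2 := by have := ha i; omega
  by_cases h0 : i = 0
  · exact hi ⟨h2, Or.inl h0⟩
  · by_cases h1 : i = Fin.last m
    · exact hi ⟨h2, Or.inr h1⟩
    · exact hc (h3 i h0 h1)

theorem no_two_closed {a : Fin (m + 1) → ℕ} (h22 : m = 1 → ¬ (a 0 = 2 ∧ a (Fin.last m) = 2))
    (j : Fin m) : ¬ (clo a j.castSucc ∧ clo a j.succ) := by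
  rintro ⟨⟨h1, h2⟩, h3, h4⟩
  have h5 : j.castSucc = 0 := by
    rcases h2 with h | h
    · exact h
    · exact absurd h (Fin.castSucc_lt_last j).ne
  have h6 : j.succ = Fin.last m := by
    rcases h4 with h | h
    · exact absurd h (Fin.succ_ne_zero j)
    · exact h
  rw [h5] at h1
  rw [h6] at h3
  have e1 := congrArg Fin.val h5
  have e2 := congrArg Fin.val h6
  simp only [Fin.val_castSucc, Fin.val_zero, Fin.val_succ, Fin.val_last] at e1 e2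
  exact h22 (by omega) ⟨h1, h3⟩

/-- The main theorem for the potential and the zero. -/
theorem t1_of (hm : 1 ≤ m) {a : Fin (m + 1) → ℕ} (ha : ∀ i, 2 ≤ a i)
    (h3 : ∀ i, i ≠ 0 → i ≠ Fin.last m → 3 ≤ a i)
    (h22 : m = 1 → ¬ (a 0 = 2 ∧ a (Fin.last m) = 2)) {ε : ℤ} (hε : ε = 1 ∨ ε = -1)
    {Φ : ℂ → ℂ → ℂ} (hΦ : IsPhi Φ) (h0 : Φ 0 0 = c00) {z : Fin (m + 1) → ℂ}
    (hz : Zr (fun i => (a i : ℝ)) chL chR 1 z) (H : Hyp1 Φ a z) (hcv : CVOK a ε z) (e : ℤ) :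
    ∃ V C : ℝ, IsGreatest (structureVolumes (List.ofFn a)) V ∧
      (∃ Z : ℂ, CV.IsComplexVolume (List.ofFn a) (decide (ε = -1)) Z ∧
        ∃ k : ℤ, Z = I * (V + C * I) + k * (Real.pi : ℂ) ^ 2) ∧
      ∃ J : ℕ → ℂ,
        (∀ N : ℕ, Tendsto (fun q => coloredJones
          (diagram Fin.castSucc (fun i : Fin (m + 1) => ε * (-1) ^ (i : ℕ) * (a i : ℤ))) e N q)
          (𝓝[≠] exp (Real.pi * I / ((N + 1 : ℕ) : ℂ))) (𝓝 (J N))) ∧
        (∃ L : ℕ → ℂ, (∀ᶠ N : ℕ in atTop, exp (L N) = J N) ∧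
          Tendsto (fun N : ℕ => 2 * (Real.pi : ℂ) * L N / (N + 1)) atTop (𝓝 (V + C * I))) ∧
        Tendsto (fun N : ℕ => 2 * (Real.pi : ℂ) * log (J N) / (N + 1)) atTop (𝓝 (V : ℂ)) ∧
        ∃ κ : ℂ, κ ≠ 0 ∧ Tendsto (fun N : ℕ => J N /
          ((((N : ℝ) + 1) ^ (3 / 2 : ℝ) : ℝ) *
            exp ((N + 1) * (V + C * I) / (2 * Real.pi)))) atTop (𝓝 κ) := by
  have hσ := sgn_or (m := m) hε
  have hs := sgn_succ (m := m) ε
  have h2 := no_two_closed h22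
  have ho := open_three ha h3
  have hD := H.ood (σ := sgn ε) hΦ h0 hz ho
  have hE := edg_of hΦ h0 hz ha hσ hs h2 (fun _ => V1_t) H.hR hD
    (fun i k hik ci _ => Cl.vok hz hik (ho i ci) (by norm_num) (by norm_num))
  exact main_of hm ha hε h2 hz hE (low_chain hm hz ha hσ hs h2 (fun _ => V1_t)
    (fun _ => by norm_num) ho (fun i ci => Ht_of (hz.thpos i) (H.hT i ci)) hΦ h0 hD hE) hcv e

end Pool.Agent.S3.T
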