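import Pool.Agent.S3.Es7
import Pool.Agent.S3.T.Cv
import Pool.Agent.S3.T.Fin1
import Pool.Agent.S3.T.RngT

/-!
# Two-bridge links with at least three half twists in every inner twist region
-/

set_option autoImplicit false

namespace Pool.Agent.S3.T

open Complex Pool.Agent.H25.RK Pool.Agent.S3.E Pool.Agent.H63.VC Pool.Agent.H63.GO
open Pool.Agent.H63.VC7 Pool.Agent.H63.VC10 Filter Topology
open scoped ComplexConjugate

variable {m : ℕ}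

theorem mu_le_pi {z : Fin (m + 1) → ℂ} {a : Fin (m + 1) → ℕ}
    (h : Zr (fun i => (a i : ℝ)) chL chR 1 z) {i k : Fin (m + 1)}
    (hik : chL i = some k ∨ chR i = some k) (h3 : 3 ≤ a i) :
    mu (bw (z i) (z k)) (a i) (13 / 40) ≤ Real.pi :=
  (mu_le h3 (h.bw_pos hik) (bw_le h hik)).trans (by linarith [Real.pi_pos])

theorem hyp1_of {a : Fin (m + 1) → ℕ} (h3 : ∀ i, ¬ clo a i → 3 ≤ a i) {Φ : ℂ → ℂ → ℂ}
    (hΦ : IsPhi Φ) (h0 : Φ 0 0 = c00) {z : Fin (m + 1) → ℂ}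
    (h : Zr (fun i => (a i : ℝ)) chL chR 1 z) : Hyp1 Φ a z where
  hR i hi := hR_t1 h (h3 i hi)
  hT i hi := hT_t1 h (h3 i hi)
  hE n p hnp cn cp :=
    endAll' hΦ h0 (h.oppHyp hnp) (h.split hnp) (h.xxpos n) (h.xxpos p)
      (Ht_of (h.thpos n) (hT_t1 h (h3 n cn))) (Ht_of (h.thpos p) (hT_t1 h (h3 p cp))) V1_t V1_t
      le_rfl le_rfl (mu_le_pi h hnp (h3 n cn)) (mu_le_pi h (h.N.symm n p hnp) (h3 p cp))
  hG n p hnp _ cp e := hG_t1 h h3 hnp cp e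

/-- **The complexified volume conjecture for the two-bridge links `C(a_0, …, a_m)`** with at least
three half twists in every inner twist region and at least two in the outer ones. -/
theorem t1 (hm : 1 ≤ m) {a : Fin (m + 1) → ℕ} (ha : ∀ i, 2 ≤ a i)
    (h3 : ∀ i, i ≠ 0 → i ≠ Fin.last m → 3 ≤ a i)
    (h22 : m = 1 → ¬ (a 0 = 2 ∧ a (Fin.last m) = 2)) {ε : ℤ} (hε : ε = 1 ∨ ε = -1) (e : ℤ) :
    ∃ V C : ℝ, IsGreatest (structureVolumes (List.ofFn a)) V ∧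
      (∃ Z : ℂ, CV.IsComplexVolume (List.ofFn a) (decide (ε = -1)) Z ∧
        ∃ k : ℤ, Z = I * (V + C * I) + k * (Real.pi : ℂ) ^ 2) ∧
      ∃ J : ℕ → ℂ,
        (∀ N : ℕ, Tendsto (fun q => coloredJones
          (diagram Fin.castSucc (fun i : Fin (m + 1) => ε * (-1) ^ (i : ℕ) * (a i : ℤ))) e N q)
          (𝓝[≠] exp (Real.pi * I / ((N + 1 : ℕ) : ℂ))) (𝓝 (J N))) ∧
        (∃ L : ℕ → ℂ, (∀ᶠ N : ℕ in atTop, exp (L N) = J N) ∧
          Tendsto (fun N : ℕ => 2 * (Real.pi : ℂ) * L N / (N + 1)) atTop (𝓝 (V + C * I))) ∧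
        Tendsto (fun N : ℕ => 2 * (Real.pi : ℂ) * log (J N) / (N + 1)) atTop (𝓝 (V : ℂ)) ∧
        ∃ κ : ℂ, κ ≠ 0 ∧ Tendsto (fun N : ℕ => J N /
          ((((N : ℝ) + 1) ^ (3 / 2 : ℝ) : ℝ) *
            exp ((N + 1) * (V + C * I) / (2 * Real.pi)))) atTop (𝓝 κ) := by
  obtain ⟨Φ, hΦ, h0⟩ := exists_Phi c00
  obtain ⟨z, hz⟩ := exists_crit hm ha
  exact t1_of hm ha h3 h22 hε hΦ h0 hz (hyp1_of (open_three ha h3) hΦ h0 hz)
    (cvOK hm ha hε hz) e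

end Pool.Agent.S3.T
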