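import Pool.Agent.S3.E.J4
import Pool.Agent.S3.LL9
import Pool.Agent.S3.T.Fin2
import Pool.Agent.S3.W2.NLJ

/-!
# Two-bridge links: at least two half twists in every twist region: the assembly
-/

set_option autoImplicit false

namespace Pool.Agent.S3.T2

open Complex Pool.Agent.H25.RK Pool.Agent.S3.E Pool.Agent.H63.VC Pool.Agent.H63.GO
open Pool.Agent.H63.VC7 Pool.Agent.H63.VC10 Filter Topology
open Pool.Agent.S3.T (sgn sgn_or sgn_succ CVOK main_of no_two_closed cvOK cast3 isEnd2_of_clo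
  hR_t1 hT_t1)
open scoped ComplexConjugate

variable {m : ℕ}

section

variable {a : Fin (m + 1) → ℕ} {z : Fin (m + 1) → ℂ} {σ : Fin (m + 1) → ℤ} {Φ : ℂ → ℂ → ℂ}

theorem three_or (i : Fin (m + 1)) (hi : 3 ≤ (fun i => (a i : ℝ)) i) :
    (fun i => (a i : ℝ)) i = 3 ∨ 4 ≤ (fun i => (a i : ℝ)) i := by
  have h : 3 ≤ a i := by
    have h' : (3 : ℝ) ≤ (a i : ℝ) := hi
    exact_mod_cast h'
  rcases h.eq_or_lt with e | e
  · left
    show (a i : ℝ) = 3
    rw [← e]; norm_num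
  · right
    show (4 : ℝ) ≤ (a i : ℝ)
    exact_mod_cast e

/-- An open vertex. -/
theorem nb_open (ha : ∀ i, 2 ≤ a i) {k : Fin (m + 1)} (ck : ¬ clo a k) :
    3 ≤ (fun i => (a i : ℝ)) k ∨ ((fun i => (a i : ℝ)) k = 2 ∧ In2 chL chR k) := by
  by_cases e : a k = 2
  · exact Or.inr ⟨cast2 e, Cl.inner_of ck e⟩
  · exact Or.inl (cast3 (by have := ha k; omega))

/-- **The abscissa at the inner vertices with two half twists.** -/
theorem reC_of (h : Zr (fun i => (a i : ℝ)) chL chR 1 z) (ha : ∀ i, 2 ≤ a i) : ReC a z := by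
  intro i ci e hk
  obtain ⟨j, k, hj, hk'⟩ := Cl.inner_of ci e
  exact h.two_re_le three_or (cast2 e) hj hk' (nb_open ha (hk j (Or.inl hj)))
    (nb_open ha (hk k (Or.inr hk')))

/-- The abscissa of the critical point is at most `31 π / 100` at the inner vertices with two
half twists. -/
theorem re_two_le (h : Zr (fun i => (a i : ℝ)) chL chR 1 z) (ha : ∀ i, 2 ≤ a i)
    {i : Fin (m + 1)} (ci : ¬ clo a i) (e : a i = 2) : (z i).re ≤ 31 / 100 * Real.pi := by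
  have hpi := Real.pi_pos
  by_cases hk : ∀ k, (chL i = some k ∨ chR i = some k) → ¬ clo a k
  · have := reC_of h ha i ci e hk
    linarith
  · push Not at hk
    obtain ⟨k, hk1, hk2⟩ := hk
    exact Cl.re_le31_end2 h (isEnd2_of_clo hk1 hk2) (cast2 e) (Cl.inner_of ci e)

theorem hR_t2 (h : Zr (fun i => (a i : ℝ)) chL chR 1 z) (ha : ∀ i, 2 ≤ a i)
    (i : Fin (m + 1)) (ci : ¬ clo a i) : (z i).re / Real.pi < vT a i := by
  have hpi := Real.pi_pos
  by_cases e : a i = 2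
  · rw [vT_two e, div_lt_iff₀ hpi]
    have := re_two_le h ha ci e
    linarith
  · rw [vT_three e]
    exact hR_t1 h (by have := ha i; omega)

theorem hT_t2 (h : Zr (fun i => (a i : ℝ)) chL chR 1 z) (ha : ∀ i, 2 ≤ a i)
    (i : Fin (m + 1)) (ci : ¬ clo a i) : Ht (th (z i).re (z i).im) := by
  have hpi := Real.pi_pos
  by_cases e : a i = 2
  · obtain ⟨p1, p2, p3⟩ := h.pos i
    have hlt := (abs_lt.1 (abs_th_lt p1 p2 p3)).2
    have h1 := tan2_lt h i ci e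
    have h0 := Real.tan_pos_of_pos_of_lt_pi_div_two (h.thpos i) hlt
    exact ⟨h.thpos i, hlt, by nlinarith⟩
  · exact Ht.of (Ht_of (h.thpos i) (hT_t1 h (by have := ha i; omega)))

/-- No loss at the critical pair. -/
theorem nl_t2 (h : Zr (fun i => (a i : ℝ)) chL chR 1 z) (ha : ∀ i, 2 ≤ a i)
    {n p : Fin (m + 1)} (hnp : chL n = some p ∨ chR n = some p) (cn : ¬ clo a n)
    (cp : ¬ clo a p) : NL (z n / (Real.pi : ℂ)) (z p / (Real.pi : ℂ)) := by
  have hpi := Real.pi_pos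
  have u : ∀ {x y : Fin (m + 1)}, (chL x = some y ∨ chR x = some y) → ¬ clo a x →
      Und (th (z x).re (z x).im) (z x / (Real.pi : ℂ)) := by
    intro x y hxy cx
    rw [← gdv_eq_div h]
    exact line_und (vT_V1 a x) (hT_t2 h ha x cx) (h.xxpos x).le
      (by rw [gdv_re_eq h]; exact (hR_t2 h ha x cx).le)
  have hp : Pr (th (z n).re (z n).im) (th (z p).re (z p).im) (z n / (Real.pi : ℂ))
      (z p / (Real.pi : ℂ)) :=
    ⟨u hnp cn, u (h.N.symm n p hnp) cp, hT_t2 h ha n cn, hT_t2 h ha p cp, (h.oppHyp hnp).S⟩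
  have hre : (z n / (Real.pi : ℂ)).re = (z n).re / Real.pi := by
    rw [div_ofReal_re]
  by_cases e : a n = 2
  · have hin := Cl.inner_of cn e
    refine hp.nl_J ?_ ?_
    · rw [hre, div_le_iff₀ hpi]
      have := re_two_le h ha cn e
      linarith
    · obtain ⟨l, r, hl, hr⟩ := hin
      rcases hnp with k | k
      · exact h.joint2 (cast2 e) (Or.inl ⟨k, hr⟩)
      · exact h.joint2 (cast2 e) (Or.inr ⟨hl, k⟩)
  · have h3 : 3 ≤ a n := by have := ha n; omega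
    refine hp.nl_t ?_ ?_
    · rw [hre]
      exact (hR_t1 h h3).le
    · have := (Ht_of (h.thpos n) (hT_t1 h h3)).tan
      linarith

/-- The open rows, at the edges with an inner vertex with two half twists. -/
structure Hyp2 (Φ : ℂ → ℂ → ℂ) (a : Fin (m + 1) → ℕ) (z : Fin (m + 1) → ℂ) : Prop where
  flat : ∀ n p : Fin (m + 1), (chL n = some p ∨ chR n = some p) → ¬ clo a n → ¬ clo a p →
    (a n = 2 ∨ a p = 2) →
    FlatH Φ (th (z n).re (z n).im) (th (z p).re (z p).im) (xx (z n).re (z n).im)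
      (xx (z p).re (z p).im) (bw (z n) (z p)) (bw (z p) (z n)) (vT a n) (vT a p)
      (mu (bw (z n) (z p)) (a n) (vT a n)) (mu (bw (z p) (z n)) (a p) (vT a p))
  flatc : ∀ n p : Fin (m + 1), (chL n = some p ∨ chR n = some p) → ¬ clo a n → ¬ clo a p →
    (a n = 2 ∨ a p = 2) →
    FlatC (th (z n).re (z n).im) (th (z p).re (z p).im) (xx (z n).re (z n).im)
      (xx (z p).re (z p).im)
  ends : ∀ n p : Fin (m + 1), (chL n = some p ∨ chR n = some p) → ¬ clo a n → ¬ clo a p →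
    (a n = 2 ∨ a p = 2) →
    EndAll Φ (th (z n).re (z n).im) (th (z p).re (z p).im) (xx (z n).re (z n).im)
      (xx (z p).re (z p).im) (bw (z n) (z p)) (bw (z p) (z n)) (vT a n) (vT a p)
      (mu (bw (z n) (z p)) (a n) (vT a n)) (mu (bw (z p) (z n)) (a p) (vT a p))

theorem gain33' (h : Zr (fun i => (a i : ℝ)) chL chR 1 z) {n p : Fin (m + 1)}
    (hnp : chL n = some p ∨ chR n = some p) (t2 : 3 ≤ a p) (e3 : a n = 3) :
    mu (bw (z n) (z p)) (a n) (13 / 40) ≤ 14 / 25 * Real.tan (th (z n).re (z n).im) := by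
  have c3 : (fun i => (a i : ℝ)) n = 3 := by
    show ((a n : ℕ) : ℝ) = 3
    rw [e3]; norm_num
  refine le_trans (le_of_eq ?_) (h.gain33 c3 hnp (cast3 t2))
  rw [e3]
  unfold mu
  push_cast
  ring

/-- The data of the edges between open vertices with at least three half twists. -/
theorem ood33 (h : Zr (fun i => (a i : ℝ)) chL chR 1 z)
    (hΦ : IsPhi Φ) (h0 : Φ 0 0 = c00) {n p : Fin (m + 1)}
    (hnp : chL n = some p ∨ chR n = some p) (tn : 3 ≤ a n) (tp : 3 ≤ a p) :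
    S3.OOD Φ (z n) (z p) (a n) (a p) (13 / 40) (13 / 40) := by
  have hpn := h.N.symm n p hnp
  have un := Ht_of (h.thpos n) (hT_t1 h tn)
  have up := Ht_of (h.thpos p) (hT_t1 h tp)
  have K : S3.OO Φ (th (z n).re (z n).im) (th (z p).re (z p).im) (xx (z n).re (z n).im)
      (xx (z p).re (z p).im) (bw (z n) (z p)) (bw (z p) (z n)) (13 / 40) (13 / 40) :=
    ⟨hΦ, h0, h.oppHyp hnp, h.split hnp, h.xxpos n, h.xxpos p, un, up, V1_t, V1_t,
      by rw [gdv_re_eq h]; exact hR_t1 h tn, by rw [gdv_re_eq h]; exact hR_t1 h tp⟩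
  refine ⟨un, up, hR_t1 h tn, hR_t1 h tp, flatAll_of un up K.ho.S le_rfl le_rfl,
    flatC_of K le_rfl le_rfl, ?_, ?_, ?_⟩
  · exact endAll' hΦ h0 (h.oppHyp hnp) (h.split hnp) (h.xxpos n) (h.xxpos p) un up V1_t V1_t
      le_rfl le_rfl (T.mu_le_pi h hnp tn) (T.mu_le_pi h hpn tp)
  · rcases tn.eq_or_lt with e | e
    · exact gainL_of' hΦ (gain33' h hnp tp e.symm)
    · exact gainL_nonpos hΦ (mu_nonpos e (h.bw_pos hnp))
  · rcases tp.eq_or_lt with e | e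
    · exact gainR_of' hΦ (gain33' h hpn tn e.symm)
    · exact gainR_nonpos hΦ (mu_nonpos e (h.bw_pos hpn))

/-- The data of the open-open edges. -/
theorem Hyp2.ood (H : Hyp2 Φ a z) (h : Zr (fun i => (a i : ℝ)) chL chR 1 z)
    (ha : ∀ i, 2 ≤ a i) (hΦ : IsPhi Φ) (h0 : Φ 0 0 = c00) : OODall a σ z Φ (vT a) := by
  intro n p hnp cn cp _ _
  have hpn := h.N.symm n p hnp
  by_cases e : a n = 2 ∨ a p = 2
  · exact ⟨hT_t2 h ha n cn, hT_t2 h ha p cp, hR_t2 h ha n cn, hR_t2 h ha p cp,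
      nl_t2 h ha hnp cn cp, nl_t2 h ha hpn cp cn, H.flat n p hnp cn cp e,
      H.flatc n p hnp cn cp e, H.ends n p hnp cn cp e⟩
  · rw [not_or] at e
    obtain ⟨e1, e2⟩ := e
    rw [vT_three e1, vT_three e2]
    exact OOD.of hΦ h0 h hnp V1_t V1_t le_rfl le_rfl
      (ood33 h hΦ h0 hnp (by have := ha n; omega) (by have := ha p; omega))

/-- The edges with a closed end. -/
theorem clEdge_of (h : Zr (fun i => (a i : ℝ)) chL chR 1 z) (ha : ∀ i, 2 ≤ a i)
    (hσ : ∀ i, σ i = 1 ∨ σ i = -1) (hs : ∀ j : Fin m, σ j.succ = -σ j.castSucc)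
    (h2 : ∀ j : Fin m, ¬ (clo a j.castSucc ∧ clo a j.succ)) {j : Fin m}
    (hc : clo a j.castSucc ∨ clo a j.succ) : ClEdge a σ z (vT a) j := by
  have e1 : lamC a z j j.castSucc = bw (z j.castSucc) (z j.succ) / a j.castSucc := by
    rw [lamC, oth_cs]
  have e2 : lamC a z j j.succ = bw (z j.succ) (z j.castSucc) / a j.succ := by
    rw [lamC, oth_su]
  have key : ∀ i k : Fin (m + 1), (chL i = some k ∨ chR i = some k) → ¬ clo a i → clo a k →
      Cl.VOK (a i) (bw (z i) (z k)) (vT a i) (bw (z i) (z k) / a i) ∨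
      Cl.VOK2 (a i) (bw (z i) (z k)) (vT a i) (bw (z i) (z k) / a i) := by
    intro i k hik ci ck
    by_cases e : a i = 2
    · right
      rw [vT_two e]
      exact Cl.vok2 h (isEnd2_of_clo hik ck) ci e (by norm_num) le_rfl
    · left
      rw [vT_three e]
      exact Cl.vok h hik (by have := ha i; omega) (by norm_num) (by norm_num)
  refine ⟨fun v w hv hw hne => Cl.far2 h ha hσ hs h2 hc ?_ ?_ v w hv hw hne,
    Cl.near2 h ha hσ hs h2 hc⟩
  · intro c1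
    rw [e1]
    rcases hc with hc | hc
    · exact absurd hc c1
    · exact key _ _ (Or.inr (chR_castSucc j)) c1 hc
  · intro c2
    rw [e2]
    rcases hc with hc | hc
    · exact key _ _ (Or.inl (chL_succ j)) c2 hc
    · exact absurd hc c2

/-- The main theorem for the potential and the zero. -/
theorem t2_of (hm : 1 ≤ m) {a : Fin (m + 1) → ℕ} (ha : ∀ i, 2 ≤ a i)
    (h22 : m = 1 → ¬ (a 0 = 2 ∧ a (Fin.last m) = 2)) {ε : ℤ} (hε : ε = 1 ∨ ε = -1)
    {Φ : ℂ → ℂ → ℂ} (hΦ : IsPhi Φ) (h0 : Φ 0 0 = c00) {z : Fin (m + 1) → ℂ}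
    (hz : Zr (fun i => (a i : ℝ)) chL chR 1 z) (H : Hyp2 Φ a z) (hcv : CVOK a ε z) (e : ℤ) :
    ∃ V C : ℝ, IsGreatest (structureVolumes (List.ofFn a)) V ∧
      (∃ Z : ℂ, CV.IsComplexVolume (List.ofFn a) (decide (ε = -1)) Z ∧
        ∃ k : ℤ, Z = I * (V + C * I) + k * (Real.pi : ℂ) ^ 2) ∧
      ∃ J : ℕ → ℂ,
        (∀ N : ℕ, Tendsto (fun q => coloredJones
          (diagram Fin.castSucc (fun i : Fin (m + 1) => ε * (-1) ^ (i : ℕ) * (a i : ℤ))) e N q)
          (𝓝[≠] exp (Real.pi * I / ((N + 1 : ℕ) : ℂ))) (𝓝 (J N))) ∧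
        (∃ L : ℕ → ℂ, (∀ᶠ N : ℕ in atTop, exp (L N) = J N) ∧
          Tendsto (fun N : ℕ => 2 * (Real.pi : ℂ) * L N / (N + 1)) atTop (𝓝 (V + C * I))) ∧
        Tendsto (fun N : ℕ => 2 * (Real.pi : ℂ) * log (J N) / (N + 1)) atTop (𝓝 (V : ℂ)) ∧
        ∃ κ : ℂ, κ ≠ 0 ∧ Tendsto (fun N : ℕ => J N /
          ((((N : ℝ) + 1) ^ (3 / 2 : ℝ) : ℝ) *
            exp ((N + 1) * (V + C * I) / (2 * Real.pi)))) atTop (𝓝 κ) := by
  have hσ := sgn_or (m := m) hε
  have hs := sgn_succ (m := m) ε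
  have h2 := no_two_closed h22
  have hD := H.ood (σ := sgn ε) hz ha hΦ h0
  have hE := edg_of hΦ h0 hz ha hσ hs h2 (vT_V1 a) (hR_t2 hz ha) hD
    (fun j hc => clEdge_of hz ha hσ hs h2 hc)
  exact main_of hm ha hε h2 hz hE (low_chain4 hm hz ha hσ hs h2 (reC_of hz ha) hΦ h0 hD hE) hcv e

/-- **The complexified volume conjecture for all two-bridge links `C(a_0, …, a_m)`** with at least
two half twists in every twist region, from the open rows. -/
theorem t2 (hm : 1 ≤ m) {a : Fin (m + 1) → ℕ} (ha : ∀ i, 2 ≤ a i)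
    (h22 : m = 1 → ¬ (a 0 = 2 ∧ a (Fin.last m) = 2)) {ε : ℤ} (hε : ε = 1 ∨ ε = -1) (e : ℤ)
    (H : ∀ (Φ : ℂ → ℂ → ℂ) (z : Fin (m + 1) → ℂ), IsPhi Φ → Φ 0 0 = c00 →
      Zr (fun i => (a i : ℝ)) chL chR 1 z → Hyp2 Φ a z) :
    ∃ V C : ℝ, IsGreatest (structureVolumes (List.ofFn a)) V ∧
      (∃ Z : ℂ, CV.IsComplexVolume (List.ofFn a) (decide (ε = -1)) Z ∧
        ∃ k : ℤ, Z = I * (V + C * I) + k * (Real.pi : ℂ) ^ 2) ∧
      ∃ J : ℕ → ℂ,
        (∀ N : ℕ, Tendsto (fun q => coloredJones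
          (diagram Fin.castSucc (fun i : Fin (m + 1) => ε * (-1) ^ (i : ℕ) * (a i : ℤ))) e N q)
          (𝓝[≠] exp (Real.pi * I / ((N + 1 : ℕ) : ℂ))) (𝓝 (J N))) ∧
        (∃ L : ℕ → ℂ, (∀ᶠ N : ℕ in atTop, exp (L N) = J N) ∧
          Tendsto (fun N : ℕ => 2 * (Real.pi : ℂ) * L N / (N + 1)) atTop (𝓝 (V + C * I))) ∧
        Tendsto (fun N : ℕ => 2 * (Real.pi : ℂ) * log (J N) / (N + 1)) atTop (𝓝 (V : ℂ)) ∧
        ∃ κ : ℂ, κ ≠ 0 ∧ Tendsto (fun N : ℕ => J N /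
          ((((N : ℝ) + 1) ^ (3 / 2 : ℝ) : ℝ) *
            exp ((N + 1) * (V + C * I) / (2 * Real.pi)))) atTop (𝓝 κ) := by
  obtain ⟨Φ, hΦ, h0⟩ := exists_Phi c00
  obtain ⟨z, hz⟩ := exists_crit hm ha
  exact t2_of hm ha h22 hε hΦ h0 hz (H Φ z hΦ h0 hz) (cvOK hm ha hε hz) e

end

end Pool.Agent.S3.T2
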