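import Pool.Agent.S3.Cl.CBU
import Pool.Agent.S3.E.OdD
import Pool.Agent.S3.E.OdE
import Pool.Agent.S3.T.Two1
import Pool.Agent.S3.W2.E23D

/-!
# The data of the slides in a chain, edges between two and at least three half twists
-/

set_option autoImplicit false

namespace Pool.Agent.S3.T2

open Complex Pool.Agent.H25.RK Pool.Agent.S3.E
open Pool.Agent.S3.T (hR_t1 hT_t1 cast3 isEnd2_of_clo)

variable {m : ℕ} {a : Fin (m + 1) → ℕ} {z : Fin (m + 1) → ℂ}

/-- (E1) at `n` in the slot towards `p`. -/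
def E1F (z : Fin (m + 1) → ℂ) (n p : Fin (m + 1)) : Prop := ∀ ρ η : ℝ, 333 / 1000 * Real.pi ≤ ρ →
  ρ ≤ 2 / 5 * Real.pi → Real.sinh η = Real.tan (th (z n).re (z n).im) * Real.cos ρ →
  bw (z n) (z p) * (η + (Real.pi / 2 - ρ) * (Real.tan ρ * Real.tanh η))
      - (bw (z n) (z p) * (Real.pi / 2 - (z n).re) - (qe (z n) (z p)).im)
        * (Real.tan ρ * Real.tanh η)
    ≤ 4 / 3 * (η + (Real.pi / 2 - ρ) * (Real.tan ρ * Real.tanh η))

/-- (E3) at `n` in the slot towards `p`, base at `ρ`. -/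
def E3F (z : Fin (m + 1) → ℂ) (n p : Fin (m + 1)) (a0 c : ℝ) : Prop := ∀ η0 η1 : ℝ,
  Real.sinh η1 = Real.tan (th (z n).re (z n).im) * Real.cos (2 / 5 * Real.pi) →
  Real.sinh η0 = Real.tan (th (z n).re (z n).im) * Real.cos (a0 * Real.pi) →
  bw (z n) (z p) * (η1 / 5 - 49 / 50 * (2 / Real.pi) *
    ((a0 * Real.pi - (z n).re) * ((z n).im - η0))) ≤ c

theorem E1F.rl (h : Zr (fun i => (a i : ℝ)) chL chR 1 z) {n p : Fin (m + 1)} (H : E1F z n p)
    {x : ℝ} (h0 : 333 / 1000 ≤ x) (h1 : x ≤ 2 / 5) :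
    rl (bw (z n) (z p)) (gdv (UU (xx (z n).re (z n).im) (th (z n).re (z n).im)))
      (qq (UU (xx (z n).re (z n).im) (th (z n).re (z n).im))
        (UU (xx (z p).re (z p).im) (-(th (z p).re (z p).im)))) (th (z n).re (z n).im) x ≤
      4 / 3 * S2l (th (z n).re (z n).im) x := by
  have hpi := Real.pi_pos
  have k := H (Real.pi * x) (Real.pi * bl (th (z n).re (z n).im) x) (by nlinarith) (by nlinarith)
    (sinh_pi_bl _ _)
  have e1 := gdv_re_eq h n
  have e2 : Real.pi * (gdv (UU (xx (z n).re (z n).im) (th (z n).re (z n).im))).re = (z n).re := by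
    rw [e1]; field_simp
  unfold T2.rl S2l Tl
  rw [e2]
  exact k

theorem E3F.l (h : Zr (fun i => (a i : ℝ)) chL chR 1 z) {n p : Fin (m + 1)} {a0 c : ℝ}
    (H : E3F z n p a0 c) :
    E3L (th (z n).re (z n).im) (xx (z n).re (z n).im) (bw (z n) (z p)) a0 c := by
  have hpi := Real.pi_pos
  have k := H (Real.pi * bl (th (z n).re (z n).im) a0) (Real.pi * bl (th (z n).re (z n).im) (2 / 5))
    (by rw [sinh_pi_bl, mul_comm (2 / 5 : ℝ)]) (by rw [sinh_pi_bl, mul_comm a0])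
  have e0 := gdv_eq_div h n
  unfold E3L BP mu
  rw [e0, vl_re, vl_im, div_ofReal_re, div_ofReal_im]
  refine le_trans (le_of_eq ?_) k
  field_simp
  ring

/-- The angle of the second vertex. -/
theorem ty23 (h : Zr (fun i => (a i : ℝ)) chL chR 1 z) {n p : Fin (m + 1)}
    (hnp : chL n = some p ∨ chR n = some p) (cn : ¬ clo a n) (en : a n = 2) (ep : 3 ≤ a p) :
    (4 ≤ a p ∧ Real.tan (th (z p).re (z p).im) ^ 2 ≤ 103 / 1000) ∨
      (a p = 3 ∧ 1 / 16 ≤ Real.tan (th (z p).re (z p).im) ^ 2) := by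
  have hpn := h.N.symm n p hnp
  rcases ep.eq_or_lt with e | e
  · right
    refine ⟨e.symm, ?_⟩
    have c3 : (fun i => (a i : ℝ)) p = 3 := by
      show ((a p : ℕ) : ℝ) = 3
      rw [← e]; norm_num
    have := Cl.Zr.t3_ge_nb2 h three_or c3 hpn (cast2 en) (Cl.inner_of cn en)
    linarith
  · left
    refine ⟨e, ?_⟩
    have c4 : (4 : ℝ) ≤ (fun i => (a i : ℝ)) p := by
      show (4 : ℝ) ≤ ((a p : ℕ) : ℝ)
      exact_mod_cast e
    exact Cl.Zr.t4_nb2 h three_or c4 hpn (cast2 en) (Cl.inner_of cn en)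

/-- The data of the slides from (E1) and (E3). -/
theorem E23.of (h : Zr (fun i => (a i : ℝ)) chL chR 1 z) {n p : Fin (m + 1)}
    (hnp : chL n = some p ∨ chR n = some p) (cn : ¬ clo a n) (en : a n = 2) (ep : 3 ≤ a p)
    (hs : 3 / 10 ≤ Real.tan (th (z n).re (z n).im) ^ 2) (h1 : E1F z n p)
    (e333 : E3F z n p (333 / 1000) (62 / 1000)) (e338 : E3F z n p (169 / 500) (60 / 1000))
    (e346 : E3F z n p (173 / 500) (55 / 1000)) (e351 : E3F z n p (351 / 1000) (52 / 1000))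
    (e372 : E3F z n p (93 / 250) (36 / 1000)) (e375 : E3F z n p (3 / 8) (34 / 1000))
    (e3 : a p = 3 → E3F z n p (333 / 1000) (55 / 1000)) :
    E23 (th (z n).re (z n).im) (th (z p).re (z p).im) (xx (z n).re (z n).im)
      (xx (z p).re (z p).im) (bw (z n) (z p)) where
  s3 := hs
  e1 := fun _ hx => h1.rl h hx.1 hx.2
  e333 := e333.l h
  e338 := e338.l h
  e346 := e346.l h
  e351 := e351.l h
  e372 := e372.l h
  e375 := e375.l h
  ty := (ty23 h hnp cn en ep).imp (fun k => k.2) (fun k => ⟨k.2, (e3 k.1).l h⟩)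

/-- The values of (E3) as in the tables. -/
def E3T (z : Fin (m + 1) → ℂ) (t : Prop) (n p : Fin (m + 1)) (ρ η0 η1 : ℝ) : Prop :=
    (333 / 1000 * Real.pi ≤ ρ → bw (z n) (z p) * (η1 / 5 - 49 / 50 * (2 / Real.pi) *
      ((ρ - (z n).re) * ((z n).im - η0))) ≤ 62 / 1000) ∧
    (338 / 1000 * Real.pi ≤ ρ → bw (z n) (z p) * (η1 / 5 - 49 / 50 * (2 / Real.pi) *
      ((ρ - (z n).re) * ((z n).im - η0))) ≤ 60 / 1000) ∧
    (346 / 1000 * Real.pi ≤ ρ → bw (z n) (z p) * (η1 / 5 - 49 / 50 * (2 / Real.pi) *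
      ((ρ - (z n).re) * ((z n).im - η0))) ≤ 55 / 1000) ∧
    (351 / 1000 * Real.pi ≤ ρ → bw (z n) (z p) * (η1 / 5 - 49 / 50 * (2 / Real.pi) *
      ((ρ - (z n).re) * ((z n).im - η0))) ≤ 52 / 1000) ∧
    (372 / 1000 * Real.pi ≤ ρ → bw (z n) (z p) * (η1 / 5 - 49 / 50 * (2 / Real.pi) *
      ((ρ - (z n).re) * ((z n).im - η0))) ≤ 36 / 1000) ∧
    (375 / 1000 * Real.pi ≤ ρ → bw (z n) (z p) * (η1 / 5 - 49 / 50 * (2 / Real.pi) *
      ((ρ - (z n).re) * ((z n).im - η0))) ≤ 34 / 1000) ∧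
    (t → 333 / 1000 * Real.pi ≤ ρ → bw (z n) (z p) * (η1 / 5 - 49 / 50 * (2 / Real.pi) *
      ((ρ - (z n).re) * ((z n).im - η0))) ≤ 55 / 1000)

/-- The data from the tables. -/
theorem E23.of_tab (h : Zr (fun i => (a i : ℝ)) chL chR 1 z) {n p : Fin (m + 1)}
    (hnp : chL n = some p ∨ chR n = some p) (cn : ¬ clo a n) (en : a n = 2) (ep : 3 ≤ a p)
    (hs : 3 / 10 ≤ Real.tan (th (z n).re (z n).im) ^ 2) (h1 : E1F z n p)
    (hE : ∀ ρ η0 η1 : ℝ,
      Real.sinh η1 = Real.tan (th (z n).re (z n).im) * Real.cos (2 / 5 * Real.pi) →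
      Real.sinh η0 = Real.tan (th (z n).re (z n).im) * Real.cos ρ → ρ ≤ Real.pi / 2 →
      E3T z ((fun i => (a i : ℝ)) p = 3) n p ρ η0 η1) :
    E23 (th (z n).re (z n).im) (th (z p).re (z p).im) (xx (z n).re (z n).im)
      (xx (z p).re (z p).im) (bw (z n) (z p)) := by
  have hpi := Real.pi_pos
  refine E23.of h hnp cn en ep hs h1 ?_ ?_ ?_ ?_ ?_ ?_ ?_
  · exact fun η0 η1 k1 k2 => (hE (333 / 1000 * Real.pi) η0 η1 k1 k2 (by linarith)).1 le_rfl
  · exact fun η0 η1 k1 k2 => (hE (169 / 500 * Real.pi) η0 η1 k1 k2 (by linarith)).2.1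
      (by linarith)
  · exact fun η0 η1 k1 k2 => (hE (173 / 500 * Real.pi) η0 η1 k1 k2 (by linarith)).2.2.1
      (by linarith)
  · exact fun η0 η1 k1 k2 => (hE (351 / 1000 * Real.pi) η0 η1 k1 k2 (by linarith)).2.2.2.1
      le_rfl
  · exact fun η0 η1 k1 k2 => (hE (93 / 250 * Real.pi) η0 η1 k1 k2 (by linarith)).2.2.2.2.1
      (by linarith)
  · exact fun η0 η1 k1 k2 => (hE (3 / 8 * Real.pi) η0 η1 k1 k2 (by linarith)).2.2.2.2.2.1
      (by linarith)
  · intro e3 η0 η1 k1 k2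
    refine (hE (333 / 1000 * Real.pi) η0 η1 k1 k2 (by linarith)).2.2.2.2.2.2 ?_ le_rfl
    show ((a p : ℕ) : ℝ) = 3
    rw [e3]; norm_num

/-- **The data at a vertex with two half twists next to a closed end.** -/
theorem E23.closed (h : Zr (fun i => (a i : ℝ)) chL chR 1 z) {n p q : Fin (m + 1)}
    (hnp : chL n = some p ∨ chR n = some p) (hnq : chL n = some q ∨ chR n = some q)
    (cn : ¬ clo a n) (cq : clo a q) (hpq : p ≠ q) (en : a n = 2) (ep : 3 ≤ a p) :
    E23 (th (z n).re (z n).im) (th (z p).re (z p).im) (xx (z n).re (z n).im)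
      (xx (z p).re (z p).im) (bw (z n) (z p)) := by
  have hpi := Real.pi_pos
  have he := isEnd2_of_clo hnq cq
  have hin := Cl.inner_of cn en
  have c2 : (fun i => (a i : ℝ)) n = 2 := cast2 en
  have c3 : (3 : ℝ) ≤ (fun i => (a i : ℝ)) p := cast3 ep
  have k := Cl.two23_end2 h three_or he c2 hin hnp hpq c3
  have hs : 3 / 10 ≤ Real.tan (th (z n).re (z n).im) ^ 2 := by
    have := k.1
    nlinarith
  refine E23.of_tab h hnp cn en ep hs ?_ ?_
  · intro ρ η r0 r1 hη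
    have e := Cl.e1d_end2 h three_or he c2 hin hnp hpq c3 (by linarith) r1 hη
    have hpos : 0 ≤ η + (Real.pi / 2 - ρ) * (Real.tan ρ * Real.tanh η) := by
      have t0 : 0 < Real.tan (th (z n).re (z n).im) := by linarith [k.1]
      have c0 : 0 ≤ Real.cos ρ :=
        Real.cos_nonneg_of_neg_pi_div_two_le_of_le (by linarith) (by linarith)
      have e0 : 0 ≤ η := by
        rw [← Real.sinh_nonneg_iff, hη]; positivity
      have e1 : 0 ≤ Real.tan ρ :=
        Real.tan_nonneg_of_nonneg_of_le_pi_div_two (by linarith) (by linarith)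
      have e2 : 0 ≤ Real.tanh η := tanh_nonneg_of e0
      have e3 : 0 ≤ Real.pi / 2 - ρ := by linarith
      positivity
    linarith
  · intro ρ η0 η1 k1 k2 k3
    exact Cl.e3_end23 h three_or he c2 hin hnp hpq c3 k1 k2 k3

/-- **The data at a vertex with two half twists away from the closed ends.** -/
theorem E23.opn (h : Zr (fun i => (a i : ℝ)) chL chR 1 z) (ha : ∀ i, 2 ≤ a i)
    {n p q : Fin (m + 1)}
    (hpq : (chL n = some p ∧ chR n = some q) ∨ (chL n = some q ∧ chR n = some p))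
    (cn : ¬ clo a n) (cq : ¬ clo a q) (en : a n = 2) (ep : 3 ≤ a p) :
    E23 (th (z n).re (z n).im) (th (z p).re (z p).im) (xx (z n).re (z n).im)
      (xx (z p).re (z p).im) (bw (z n) (z p)) := by
  have hpi := Real.pi_pos
  have c2 : (fun i => (a i : ℝ)) n = 2 := cast2 en
  have c3 : (3 : ℝ) ≤ (fun i => (a i : ℝ)) p := cast3 ep
  have k := E.Zr.dat_open23 h three_or c2 hpq c3 (nb_open ha cq)
  have hnp : chL n = some p ∨ chR n = some p := by
    rcases hpq with k | k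
    · exact Or.inl k.1
    · exact Or.inr k.2
  refine E23.of_tab h hnp cn en ep k.1 ?_ ?_
  · intro ρ η r0 r1 hη
    exact k.2.2.2 hη (by linarith) r1
  · intro ρ η0 η1 k1 k2 k3
    exact E.Zr.e3_open23 h three_or c2 hpq c3 (nb_open ha cq) k1 k2 k3

/-- **The data of the slides in a chain.** -/
theorem e23_of (h : Zr (fun i => (a i : ℝ)) chL chR 1 z) (ha : ∀ i, 2 ≤ a i)
    {n p : Fin (m + 1)} (hnp : chL n = some p ∨ chR n = some p) (cn : ¬ clo a n)
    (cp : ¬ clo a p) (en : a n = 2) (ep : 3 ≤ a p) :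
    E23 (th (z n).re (z n).im) (th (z p).re (z p).im) (xx (z n).re (z n).im)
      (xx (z p).re (z p).im) (bw (z n) (z p)) := by
  obtain ⟨l, r, hl, hr⟩ := Cl.inner_of cn en
  have key : ∃ k, (chL n = some p ∧ chR n = some k) ∨ (chL n = some k ∧ chR n = some p) := by
    rcases hnp with k | k
    · exact ⟨r, Or.inl ⟨k, hr⟩⟩
    · exact ⟨l, Or.inr ⟨hl, k⟩⟩
  obtain ⟨q, hq⟩ := key
  by_cases cq : clo a q
  · refine E23.closed h hnp ?_ cn cq (fun e => cp (e ▸ cq)) en ep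
    rcases hq with k | k
    · exact Or.inr k.2
    · exact Or.inl k.1
  · exact E23.opn h ha hq cn cq en ep

end Pool.Agent.S3.T2
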