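import Pool.Agent.S3.T.Two1
import Pool.Agent.S3.Ls.Zr2

/-!
# Two-bridge links: the data of the field `ends`
-/

set_option autoImplicit false

namespace Pool.Agent.S3.T2

open Complex Pool.Agent.H25.RK Pool.Agent.S3.E Pool.Agent.H63.VC Pool.Agent.H63.GO
open Pool.Agent.H63.VC7 Pool.Agent.H63.VC10 Filter Topology
open Pool.Agent.S3.T (sgn sgn_or sgn_succ CVOK main_of no_two_closed cvOK cast3 isEnd2_of_clo
  hR_t1 hT_t1)
open scoped ComplexConjugate

variable {m : ℕ} {a : Fin (m + 1) → ℕ} {z : Fin (m + 1) → ℂ}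

theorem other (h : Zr (fun i => (a i : ℝ)) chL chR 1 z) {n p : Fin (m + 1)}
    (hnp : chL n = some p ∨ chR n = some p) (cn : ¬ clo a n) (en : a n = 2) :
    ∃ q, ((chL n = some p ∧ chR n = some q) ∨ (chL n = some q ∧ chR n = some p)) := by
  obtain ⟨l, r, hl, hr⟩ := Cl.inner_of cn en
  rcases hnp with e | e
  · exact ⟨r, Or.inl ⟨e, hr⟩⟩
  · exact ⟨l, Or.inr ⟨hl, e⟩⟩

theorem op_of (ha : ∀ i, 2 ≤ a i) {k : Fin (m + 1)} (ck : ¬ clo a k) :
    Op (fun i => (a i : ℝ)) chL chR k := nb_open ha ck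

/-- **The loss of an inner `2`**, both kinds of the other neighbour. -/
theorem dp23_t2 (h : Zr (fun i => (a i : ℝ)) chL chR 1 z) (ha : ∀ i, 2 ≤ a i)
    {n p : Fin (m + 1)} (hnp : chL n = some p ∨ chR n = some p) (cn : ¬ clo a n)
    (cp : ¬ clo a p) (en : a n = 2) :
    Ls.DP Ls.Lp23 (Real.tan (th (z n).re (z n).im)) (bw (z n) (z p))
      (Pe (th (z n).re (z n).im) (th (z p).re (z p).im) (xx (z n).re (z n).im)
        (xx (z p).re (z p).im) (bw (z n) (z p))) := by
  rw [h.Pe_eq n p]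
  obtain ⟨q, hq⟩ := other h hnp cn en
  by_cases cq : clo a q
  · have hqn : chL n = some q ∨ chR n = some q := by
      rcases hq with ⟨e, e'⟩ | ⟨e, e'⟩
      · exact Or.inr e'
      · exact Or.inl e
    have hpq : p ≠ q := fun e => cp (e ▸ cq)
    refine (h.dp22_end2 (isEnd2_of_clo hqn cq) (cast2 en) hnp hpq ?_).to23
    rcases op_of ha cp with e | e
    · exact Or.inr (three_or p e)
    · exact Or.inl e
  · exact h.dp23 three_or (cast2 en) hq (op_of ha cp) (op_of ha cq)

/-- **The loss of an inner `2`** next to a neighbour with `17 / 25 ≤ |cos z|`. -/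
theorem dp22_t2 (h : Zr (fun i => (a i : ℝ)) chL chR 1 z) (ha : ∀ i, 2 ≤ a i)
    {n p : Fin (m + 1)} (hnp : chL n = some p ∨ chR n = some p) (cn : ¬ clo a n)
    (cp : ¬ clo a p) (en : a n = 2)
    (hρ : (∀ q, (chL n = some q ∨ chR n = some q) → ¬ clo a q) → 17 / 25 ≤ ‖cos (z p)‖) :
    Ls.DP Ls.Lp22 (Real.tan (th (z n).re (z n).im)) (bw (z n) (z p))
      (Pe (th (z n).re (z n).im) (th (z p).re (z p).im) (xx (z n).re (z n).im)
        (xx (z p).re (z p).im) (bw (z n) (z p))) := by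
  rw [h.Pe_eq n p]
  obtain ⟨q, hq⟩ := other h hnp cn en
  by_cases cq : clo a q
  · have hqn : chL n = some q ∨ chR n = some q := by
      rcases hq with ⟨e, e'⟩ | ⟨e, e'⟩
      · exact Or.inr e'
      · exact Or.inl e
    have hpq : p ≠ q := fun e => cp (e ▸ cq)
    refine h.dp22_end2 (isEnd2_of_clo hqn cq) (cast2 en) hnp hpq ?_
    rcases op_of ha cp with e | e
    · exact Or.inr (three_or p e)
    · exact Or.inl e
  · refine h.dp22 three_or (cast2 en) hq (op_of ha cp) (op_of ha cq) (hρ ?_)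
    intro q' hq'
    rcases hq with ⟨e, e'⟩ | ⟨e, e'⟩
    · rcases hq' with f | f
      · rw [e] at f; rw [← Option.some.inj f]; exact cp
      · rw [e'] at f; rw [← Option.some.inj f]; exact cq
    · rcases hq' with f | f
      · rw [e] at f; rw [← Option.some.inj f]; exact cq
      · rw [e'] at f; rw [← Option.some.inj f]; exact cp

end Pool.Agent.S3.T2
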