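import Pool.Agent.S3.E.J6A
import Pool.Agent.S3.Es26
import Pool.Agent.S3.T.Ends

/-!
# Two-bridge links: the field `ends`
-/

set_option autoImplicit false

namespace Pool.Agent.S3.T2

open Complex Pool.Agent.H25.RK Pool.Agent.S3.E Pool.Agent.H63.VC Pool.Agent.H63.GO
open Pool.Agent.H63.VC7 Pool.Agent.H63.VC10 Filter Topology
open Pool.Agent.S3.T (sgn sgn_or sgn_succ CVOK main_of no_two_closed cvOK cast3 isEnd2_of_clo
  hR_t1 hT_t1)
open scoped ComplexConjugate

variable {m : ℕ} {a : Fin (m + 1) → ℕ} {z : Fin (m + 1) → ℂ}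

/-- The joint range condition at an edge of an inner `2`. -/
theorem jt_t2 (h : Zr (fun i => (a i : ℝ)) chL chR 1 z) (ha : ∀ i, 2 ≤ a i)
    {n p : Fin (m + 1)} (hnp : chL n = some p ∨ chR n = some p) (cn : ¬ clo a n)
    (cp : ¬ clo a p) (en : a n = 2) :
    Jt (Real.tan (th (z n).re (z n).im) ^ 2) (Real.tan (th (z p).re (z p).im) ^ 2) := by
  obtain ⟨q, hq⟩ := other h hnp cn en
  have J := fun {κ t₀ : ℝ} hκ => h.joint3 (κ := κ) (t₀ := t₀) three_or (cast2 en) hq
    (op_of ha cp) hκ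
  have key : ∀ {κ t₀ : ℝ}, (Real.tan (th (z p).re (z p).im) ^ 2 ≤ κ ∨
      Real.tan (th (z n).re (z n).im) ^ 2 ≤ t₀) → κ < Real.tan (th (z p).re (z p).im) ^ 2 →
      Real.tan (th (z n).re (z n).im) ^ 2 ≤ t₀ := fun h1 h2 => by
    rcases h1 with h1 | h1
    · exact absurd h1 (not_le.2 h2)
    · exact h1
  have t0 := Real.tan_pos_of_pos_of_lt_pi_div_two (h.thpos n) (hT_t2 h ha n cn).lt
  constructor
  · have h1 := tan2_lt h n cn en
    exact pow_le_one₀ t0.le h1.le
  · exact key (J (by norm_num))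
  · exact key (J (by norm_num))
  · exact key (J (by norm_num))
  · exact key (J (by norm_num))
  · exact key (J (by norm_num))
  · exact key (J (by norm_num))
  · exact key (J (by norm_num))
  · exact key (J (by norm_num))
  · exact key (J (by norm_num))
  · exact key (J (by norm_num))

/-- The modulus of an inner `2` with open neighbours. -/
theorem norm_open (h : Zr (fun i => (a i : ℝ)) chL chR 1 z) (ha : ∀ i, 2 ≤ a i)
    {n : Fin (m + 1)} (cn : ¬ clo a n) (en : a n = 2)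
    (ho : ∀ q, (chL n = some q ∨ chR n = some q) → ¬ clo a q) : 73 / 100 ≤ ‖cos (z n)‖ := by
  obtain ⟨l, r, hl, hr⟩ := Cl.inner_of cn en
  have k := (h.stage1 three_or (cast2 en) (Or.inl ⟨hl, hr⟩) (op_of ha (ho l (Or.inl hl)))
    (op_of ha (ho r (Or.inr hr)))).2.2
  rw [← norm_cos_sq] at k
  have := norm_nonneg (cos (z n))
  nlinarith

/-- The modulus of the neighbour of an inner `2`, the remaining case. -/
def RhoC (a : Fin (m + 1) → ℕ) (z : Fin (m + 1) → ℂ) : Prop :=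
  ∀ n p : Fin (m + 1), (chL n = some p ∨ chR n = some p) → ¬ clo a n → ¬ clo a p → a n = 2 →
    a p = 2 → (∀ q, (chL n = some q ∨ chR n = some q) → ¬ clo a q) →
    (∃ q, (chL p = some q ∨ chR p = some q) ∧ clo a q) → 17 / 25 ≤ ‖cos (z p)‖

/-- The loss of a vertex of multiplicity at least three next to an inner `2`. -/
def L3C (a : Fin (m + 1) → ℕ) (z : Fin (m + 1) → ℂ) : Prop :=
  ∀ n p : Fin (m + 1), (chL n = some p ∨ chR n = some p) → ¬ clo a n → ¬ clo a p → 3 ≤ a n →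
    a p = 2 → TT.L3T (Real.tan (th (z n).re (z n).im) ^ 2)
      (Le (th (z n).re (z n).im) (th (z p).re (z p).im) (xx (z n).re (z n).im)
        (xx (z p).re (z p).im) (bw (z n) (z p)))

theorem mu_le_t2 (h : Zr (fun i => (a i : ℝ)) chL chR 1 z) (ha : ∀ i, 2 ≤ a i)
    {i k : Fin (m + 1)} (hik : chL i = some k ∨ chR i = some k) :
    mu (bw (z i) (z k)) (a i) (vT a i) ≤ Real.pi := by
  have hpi := Real.pi_pos
  by_cases e : a i = 2
  · rw [vT_two e]
    have h1 := h.bw_pos hik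
    have h2 : bw (z i) (z k) ≤ (a i : ℝ) := h.bw_le hik
    rw [e] at h2 ⊢
    unfold mu
    push_cast at h2 ⊢
    have e2 : bw (z i) (z k) / 2 * (2 * Real.pi * (1 - 2 * (2 / 5))) =
      bw (z i) (z k) * (Real.pi / 5) := by ring
    rw [e2]
    have := mul_le_mul_of_nonneg_right h2 (by positivity : 0 ≤ Real.pi / 5)
    linarith
  · rw [vT_three e]
    exact T.mu_le_pi h hik (by have := ha i; omega)

theorem dp22_t2' (h : Zr (fun i => (a i : ℝ)) chL chR 1 z) (ha : ∀ i, 2 ≤ a i)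
    (H : RhoC a z) {n p : Fin (m + 1)} (hnp : chL n = some p ∨ chR n = some p) (cn : ¬ clo a n)
    (cp : ¬ clo a p) (en : a n = 2) (ep : a p = 2) :
    Ls.DP Ls.Lp22 (Real.tan (th (z n).re (z n).im)) (bw (z n) (z p))
      (Pe (th (z n).re (z n).im) (th (z p).re (z p).im) (xx (z n).re (z n).im)
        (xx (z p).re (z p).im) (bw (z n) (z p))) := by
  refine dp22_t2 h ha hnp cn cp en fun ho => ?_
  by_cases hq : ∃ q, (chL p = some q ∨ chR p = some q) ∧ clo a q
  · exact H n p hnp cn cp en ep ho hq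
  · push Not at hq
    have := norm_open h ha cp ep hq
    linarith

/-- **The field `ends`.** -/
theorem ends_t2 (h : Zr (fun i => (a i : ℝ)) chL chR 1 z) (ha : ∀ i, 2 ≤ a i)
    (H : RhoC a z) (H3 : L3C a z) {Φ : ℂ → ℂ → ℂ} (hΦ : IsPhi Φ) (h0 : Φ 0 0 = c00)
    {n p : Fin (m + 1)} (hnp : chL n = some p ∨ chR n = some p) (cn : ¬ clo a n)
    (cp : ¬ clo a p) (e : a n = 2 ∨ a p = 2) :
    EndAll Φ (th (z n).re (z n).im) (th (z p).re (z p).im) (xx (z n).re (z n).im)
      (xx (z p).re (z p).im) (bw (z n) (z p)) (bw (z p) (z n)) (vT a n) (vT a p)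
      (mu (bw (z n) (z p)) (a n) (vT a n)) (mu (bw (z p) (z n)) (a p) (vT a p)) := by
  have hpn := h.N.symm n p hnp
  have ho := h.oppHyp hnp
  have hs := h.split hnp
  have v0 := (vT_V1 a n).pos
  have v1 : vT a n < 1 / 2 := lt_of_le_of_lt (vT_V1 a n).le (by norm_num)
  have w0 := (vT_V1 a p).pos
  have w1 : vT a p < 1 / 2 := lt_of_le_of_lt (vT_V1 a p).le (by norm_num)
  have m1 := mu_le_t2 h ha hnp
  have m2 := mu_le_t2 h ha hpn
  by_cases en : a n = 2
  · by_cases ep : a p = 2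
    · exact TT.endAll_dd hΦ h0 ho hs (h.xxpos n) (h.xxpos p) (jt_t2 h ha hnp cn cp en)
        (jt_t2 h ha hpn cp cn ep) (dp22_t2' h ha H hnp cn cp en ep)
        (dp22_t2' h ha H hpn cp cn ep en) v0 v1 w0 w1 m1 m2
    · exact TT.endAll_d3 hΦ h0 ho hs (h.xxpos n) (h.xxpos p) (jt_t2 h ha hnp cn cp en)
        (dp23_t2 h ha hnp cn cp en) (H3 p n hpn cp cn (by have := ha p; omega) en)
        v0 v1 w0 w1 m1 m2
  · have ep : a p = 2 := e.resolve_left en
    exact TT.endAll_3d hΦ h0 ho hs (h.xxpos n) (h.xxpos p) (jt_t2 h ha hpn cp cn ep)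
      (H3 n p hnp cn cp (by have := ha n; omega) ep) (dp23_t2 h ha hpn cp cn ep)
      v0 v1 w0 w1 m1 m2

end Pool.Agent.S3.T2
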