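import Pool.Agent.S3.T.EndsF
import Pool.Agent.S3.E.PbQ

/-!
# Two-bridge links: the field `ends`, from the remaining case of the modulus
-/

set_option autoImplicit false

namespace Pool.Agent.S3.T2

open Complex Pool.Agent.H25.RK Pool.Agent.S3.E Pool.Agent.H63.VC Pool.Agent.H63.GO
open Pool.Agent.H63.VC7 Pool.Agent.H63.VC10 Filter Topology
open Pool.Agent.S3.T (cast3)
open scoped ComplexConjugate

variable {m : ℕ} {a : Fin (m + 1) → ℕ} {z : Fin (m + 1) → ℂ}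

theorem l3c_t2 (h : Zr (fun i => (a i : ℝ)) chL chR 1 z) : L3C a z :=
  fun _ _ hnp _ cp tn ep => h.n23T three_or (cast3 tn) hnp (cast2 ep) (Cl.inner_of cp ep)

/-- **The field `ends`.** -/
theorem ends_t2' (h : Zr (fun i => (a i : ℝ)) chL chR 1 z) (ha : ∀ i, 2 ≤ a i)
    (H : RhoC a z) {Φ : ℂ → ℂ → ℂ} (hΦ : IsPhi Φ) (h0 : Φ 0 0 = c00)
    (n p : Fin (m + 1)) (hnp : chL n = some p ∨ chR n = some p) (cn : ¬ clo a n)
    (cp : ¬ clo a p) (e : a n = 2 ∨ a p = 2) :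
    EndAll Φ (th (z n).re (z n).im) (th (z p).re (z p).im) (xx (z n).re (z n).im)
      (xx (z p).re (z p).im) (bw (z n) (z p)) (bw (z p) (z n)) (vT a n) (vT a p)
      (mu (bw (z n) (z p)) (a n) (vT a n)) (mu (bw (z p) (z n)) (a p) (vT a p)) :=
  ends_t2 h ha H (l3c_t2 h) hΦ h0 hnp cn cp e

end Pool.Agent.S3.T2
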