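import Pool.Agent.S3.T.EndsF
import Pool.Agent.S3.E.J6B

/-!
# The modulus of an inner vertex with two half twists next to a closed vertex
-/

set_option autoImplicit false

namespace Pool.Agent.S3.T2

open Complex Pool.Agent.S3.E

variable {m : ℕ} {a : Fin (m + 1) → ℕ} {z : Fin (m + 1) → ℂ}

/-- The remaining case of the modulus, from `Zr.adj22`. -/
theorem rhoC (h : Zr (fun i => (a i : ℝ)) chL chR 1 z) : RhoC a z := by
  intro n p hnp cn cp en ep _ _
  have k := (h.adj22 three_or (cast2 ep) (Cl.inner_of cp ep) (cast2 en) (Cl.inner_of cn en)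
    (h.N.symm n p hnp)).2.2
  linarith

end Pool.Agent.S3.T2
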