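import Pool.Agent.S3.T.EndsG
import Pool.Agent.S3.T.RhoC

/-!
# Two-bridge links: the field `ends`, complete
-/

set_option autoImplicit false

namespace Pool.Agent.S3.T2

open Complex Pool.Agent.H25.RK Pool.Agent.S3.E Pool.Agent.H63.VC Pool.Agent.H63.GO
open Pool.Agent.H63.VC7 Pool.Agent.H63.VC10 Filter Topology

variable {m : ℕ} {a : Fin (m + 1) → ℕ} {z : Fin (m + 1) → ℂ}

/-- **The field `ends`.** -/
theorem ends_all (h : Zr (fun i => (a i : ℝ)) chL chR 1 z) (ha : ∀ i, 2 ≤ a i)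
    {Φ : ℂ → ℂ → ℂ} (hΦ : IsPhi Φ) (h0 : Φ 0 0 = c00)
    (n p : Fin (m + 1)) (hnp : chL n = some p ∨ chR n = some p) (cn : ¬ clo a n)
    (cp : ¬ clo a p) (e : a n = 2 ∨ a p = 2) :
    EndAll Φ (th (z n).re (z n).im) (th (z p).re (z p).im) (xx (z n).re (z n).im)
      (xx (z p).re (z p).im) (bw (z n) (z p)) (bw (z p) (z n)) (vT a n) (vT a p)
      (mu (bw (z n) (z p)) (a n) (vT a n)) (mu (bw (z p) (z n)) (a p) (vT a p)) :=
  ends_t2' h ha (rhoC h) hΦ h0 n p hnp cn cp e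

end Pool.Agent.S3.T2
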