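import Pool.Agent.S3.T.Dat23
import Pool.Agent.S3.W2.FlatSw

/-!
# The field `flat` from its two cases
-/

set_option autoImplicit false

namespace Pool.Agent.S3.T2

open Complex Pool.Agent.H25.RK Pool.Agent.S3.E

variable {m : ℕ} {a : Fin (m + 1) → ℕ} {z : Fin (m + 1) → ℂ}

/-- The field `flat` at an edge. -/
def FlatE (Φ : ℂ → ℂ → ℂ) (a : Fin (m + 1) → ℕ) (z : Fin (m + 1) → ℂ) (n p : Fin (m + 1)) : Prop :=
  FlatH Φ (th (z n).re (z n).im) (th (z p).re (z p).im) (xx (z n).re (z n).im)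
    (xx (z p).re (z p).im) (bw (z n) (z p)) (bw (z p) (z n)) (vT a n) (vT a p)
    (mu (bw (z n) (z p)) (a n) (vT a n)) (mu (bw (z p) (z n)) (a p) (vT a p))

theorem FlatE.swap (h : Zr (fun i => (a i : ℝ)) chL chR 1 z) (ha : ∀ i, 2 ≤ a i)
    {Φ : ℂ → ℂ → ℂ} (hΦ : IsPhi Φ) (h0 : Φ 0 0 = c00) {n p : Fin (m + 1)}
    (hnp : chL n = some p ∨ chR n = some p) (cn : ¬ clo a n) (cp : ¬ clo a p)
    (hF : FlatE Φ a z n p) : FlatE (fun v w => Φ w v) a z p n :=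
  FlatH.swap (oo_t2 h ha hΦ h0 hnp cn cp) hF

/-- **The field `flat`**, from the edges whose first vertex has two half twists. -/
theorem flat_all (h : Zr (fun i => (a i : ℝ)) chL chR 1 z) (ha : ∀ i, 2 ≤ a i)
    {Φ : ℂ → ℂ → ℂ} (hΦ : IsPhi Φ) (h0 : Φ 0 0 = c00)
    (F23 : ∀ Ψ : ℂ → ℂ → ℂ, IsPhi Ψ → Ψ 0 0 = c00 → ∀ n p : Fin (m + 1),
      (chL n = some p ∨ chR n = some p) → ¬ clo a n → ¬ clo a p → a n = 2 → 3 ≤ a p →
      FlatE Ψ a z n p)
    (F22 : ∀ n p : Fin (m + 1), (chL n = some p ∨ chR n = some p) → ¬ clo a n → ¬ clo a p →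
      a n = 2 → a p = 2 → FlatE Φ a z n p)
    (n p : Fin (m + 1)) (hnp : chL n = some p ∨ chR n = some p) (cn : ¬ clo a n)
    (cp : ¬ clo a p) (e : a n = 2 ∨ a p = 2) : FlatE Φ a z n p := by
  by_cases en : a n = 2
  · by_cases ep : a p = 2
    · exact F22 n p hnp cn cp en ep
    · exact F23 Φ hΦ h0 n p hnp cn cp en (by have := ha p; omega)
  · have ep := e.resolve_left en
    have hpn := h.N.symm n p hnp
    have k := F23 (fun v w => Φ w v) hΦ.swap h0 p n hpn cp cn ep (by have := ha n; omega)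
    exact k.swap h ha hΦ.swap h0 hpn cp cn

end Pool.Agent.S3.T2
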