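import Pool.Agent.S3.Ck.Fc1
import Pool.Agent.S3.Ck.Fc2
import Pool.Agent.S3.E.J5C
import Pool.Agent.S3.T.Two1
import Pool.Agent.S3.W2.Flats

/-!
# The strict flat at the critical pairs with an inner vertex with two half twists
-/

set_option autoImplicit false

namespace Pool.Agent.S3.T2

open Complex Pool.Agent.H25.RK Pool.Agent.S3.E
open Pool.Agent.S3.T (hR_t1 hT_t1 cast3)

variable {m : ℕ} {a : Fin (m + 1) → ℕ} {z : Fin (m + 1) → ℂ}

/-- The joint condition at an edge. -/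
theorem j3_of (h : Zr (fun i => (a i : ℝ)) chL chR 1 z) (ha : ∀ i, 2 ≤ a i) {n p : Fin (m + 1)}
    (hnp : chL n = some p ∨ chR n = some p) (cn : ¬ clo a n) (cp : ¬ clo a p) (e : a n = 2) :
    Ck.J3 (Real.tan (th (z n).re (z n).im) ^ 2) (Real.tan (th (z p).re (z p).im) ^ 2) := by
  obtain ⟨l, r, hl, hr⟩ := Cl.inner_of cn e
  have key : ∃ k, (chL n = some p ∧ chR n = some k) ∨ (chL n = some k ∧ chR n = some p) := by
    rcases hnp with k | k
    · exact ⟨r, Or.inl ⟨k, hr⟩⟩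
    · exact ⟨l, Or.inr ⟨hl, k⟩⟩
  obtain ⟨k, hk⟩ := key
  have q := fun {κ t₀ : ℝ} hκ => h.joint3 (κ := κ) (t₀ := t₀) three_or (cast2 e) hk
    (nb_open ha cp) hκ
  exact ⟨q (by norm_num), q (by norm_num), q (by norm_num), q (by norm_num), q (by norm_num),
    q (by norm_num), q (by norm_num), q (by norm_num), q (by norm_num), q (by norm_num)⟩

/-- `re v_c ≤ 3/10` at the edges with an inner vertex with two half twists. -/
theorem re30 (h : Zr (fun i => (a i : ℝ)) chL chR 1 z) (ha : ∀ i, 2 ≤ a i) {n p : Fin (m + 1)}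
    (hnp : chL n = some p ∨ chR n = some p) (cn : ¬ clo a n) (cp : ¬ clo a p) (e : a n = 2) :
    (z n).re / Real.pi ≤ 3 / 10 ∧ (z p).re / Real.pi ≤ 3 / 10 := by
  have hpi := Real.pi_pos
  obtain ⟨l, r, hl, hr⟩ := Cl.inner_of cn e
  have key : ∃ k, (chL n = some p ∧ chR n = some k) ∨ (chL n = some k ∧ chR n = some p) := by
    rcases hnp with k | k
    · exact ⟨r, Or.inl ⟨k, hr⟩⟩
    · exact ⟨l, Or.inr ⟨hl, k⟩⟩
  obtain ⟨k, hk⟩ := key
  have h1 := h.two_re_le' three_or (cast2 e) hk (nb_open ha cp)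
  have h2 := h.open_re_le three_or (cast2 e) ⟨l, r, hl, hr⟩ hnp (nb_open ha cp)
  constructor
  · rw [div_le_iff₀ hpi]; exact h1
  · rw [div_le_iff₀ hpi]; exact h2

/-- The lower bound of the abscissa at the inner vertices with two half twists. -/
def Low2 (a : Fin (m + 1) → ℕ) (z : Fin (m + 1) → ℂ) : Prop :=
  ∀ n p : Fin (m + 1), (chL n = some p ∨ chR n = some p) → ¬ clo a n → ¬ clo a p → a n = 2 →
    11 / 50 ≤ (z n).re / Real.pi

/-- **The field `flatc`.** -/
theorem flatc_t2 (h : Zr (fun i => (a i : ℝ)) chL chR 1 z) (ha : ∀ i, 2 ≤ a i) (hlow : Low2 a z)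
    {Φ : ℂ → ℂ → ℂ} (hΦ : IsPhi Φ) (h0 : Φ 0 0 = c00)
    {n p : Fin (m + 1)} (hnp : chL n = some p ∨ chR n = some p) (cn : ¬ clo a n)
    (cp : ¬ clo a p) (e : a n = 2 ∨ a p = 2) :
    FlatC (th (z n).re (z n).im) (th (z p).re (z p).im) (xx (z n).re (z n).im)
      (xx (z p).re (z p).im) := by
  have hpi := Real.pi_pos
  have hpn := h.N.symm n p hnp
  have H : OO Φ (th (z n).re (z n).im) (th (z p).re (z p).im) (xx (z n).re (z n).im)
      (xx (z p).re (z p).im) (bw (z n) (z p)) (bw (z p) (z n)) (vT a n) (vT a p) :=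
    ⟨hΦ, h0, h.oppHyp hnp, h.split hnp, h.xxpos n, h.xxpos p, hT_t2 h ha n cn, hT_t2 h ha p cp,
      vT_V1 a n, vT_V1 a p, by rw [gdv_re_eq h]; exact hR_t2 h ha n cn,
      by rw [gdv_re_eq h]; exact hR_t2 h ha p cp,
      by rw [gdv_eq_div h, gdv_eq_div h]; exact nl_t2 h ha hnp cn cp,
      by rw [gdv_eq_div h, gdv_eq_div h]; exact nl_t2 h ha hpn cp cn⟩
  apply H.flatC_M
  have hp := H.prc
  rw [gdv_eq_div h, gdv_eq_div h] at hp ⊢
  have r1 : ∀ i : Fin (m + 1), (z i / (Real.pi : ℂ)).re = (z i).re / Real.pi := fun i => by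
    rw [div_ofReal_re]
  have t2 : ∀ i : Fin (m + 1), ¬ clo a i → a i = 2 → Real.tan (th (z i).re (z i).im) ^ 2 < 1 := by
    intro i ci ei
    have q1 := tan2_lt h i ci ei
    have q3 := hT_t2 h ha i ci
    have q2 := Real.tan_pos_of_pos_of_lt_pi_div_two q3.pos q3.lt
    nlinarith
  -- three half twists
  have t3 : ∀ i : Fin (m + 1), a i ≠ 2 → Real.tan (th (z i).re (z i).im) ^ 2 ≤ 53 / 147 := by
    intro i hi
    exact tan_sq_le_of (h.thpos i).le (hT_t1 h (by have := ha i; omega))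
  by_cases en : a n = 2
  · have j := j3_of h ha hnp cn cp en
    obtain ⟨q1, q2⟩ := re30 h ha hnp cn cp en
    have q3 := hlow n p hnp cn cp en
    by_cases ep : a p = 2
    · have j' := j3_of h ha hpn cp cn ep
      have q4 := hlow p n hpn cp cn ep
      exact Ck.flat_c2 hp j j' (t2 n cn en) (t2 p cp ep) (by rw [r1]; exact q3)
        (by rw [r1]; exact q1) (by rw [r1]; exact q4) (by rw [r1]; exact q2)
    · exact Ck.flat_c1 hp j (t2 n cn en) (t3 p ep) (by rw [r1]; linarith)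
        (by rw [r1]; exact q1) (by rw [r1]; exact q2)
  · have ep : a p = 2 := e.resolve_left en
    have j := j3_of h ha hpn cp cn ep
    obtain ⟨q1, q2⟩ := re30 h ha hpn cp cn ep
    have q3 := hlow p n hpn cp cn ep
    exact FM.symm (Ck.flat_c1 hp.symm j (t2 p cp ep) (t3 n en) (by rw [r1]; linarith)
        (by rw [r1]; exact q1) (by rw [r1]; exact q2))

end Pool.Agent.S3.T2
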