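import Pool.Agent.S3.Cl.E3J
import Pool.Agent.S3.Cl.W2E
import Pool.Agent.S3.E.J6E1
import Pool.Agent.S3.E.J6E3B
import Pool.Agent.S3.E.J6V
import Pool.Agent.S3.T.Ends
import Pool.Agent.S3.T.FlatC2
import Pool.Agent.S3.W3.Go

/-!
# The data of the slots of the edges between two inner vertices with two half twists
-/

set_option autoImplicit false

namespace Pool.Agent.S3.T2

open Complex Pool.Agent.H25.RK Pool.Agent.S3.E
open Pool.Agent.S3.T (hR_t1 hT_t1 cast3 isEnd2_of_clo)

variable {m : ℕ} {a : Fin (m + 1) → ℕ} {z : Fin (m + 1) → ℂ} {Φ : ℂ → ℂ → ℂ}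

theorem BP_eqz (h : Zr (fun i => (a i : ℝ)) chL chR 1 z) (n : Fin (m + 1)) (b x : ℝ) :
    49 / 50 * BP b (gdv (UU (xx (z n).re (z n).im) (th (z n).re (z n).im)))
      (vl (th (z n).re (z n).im) x) =
    b * (49 / 50 * (2 / Real.pi) * ((Real.pi * x - (z n).re) *
      ((z n).im - Real.pi * bl (th (z n).re (z n).im) x))) := by
  have hpi := Real.pi_ne_zero
  have e1 : (z n / (Real.pi : ℂ)).re = (z n).re / Real.pi := by rw [div_ofReal_re]
  have e2 : (z n / (Real.pi : ℂ)).im = (z n).im / Real.pi := by rw [div_ofReal_im]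
  rw [gdv_eq_div h, BP, vl_re, vl_im, e1, e2]
  field_simp

theorem X3_eqz (h : Zr (fun i => (a i : ℝ)) chL chR 1 z) (n : Fin (m + 1)) (b x : ℝ) :
    X3 (th (z n).re (z n).im) (xx (z n).re (z n).im) b (mu b (2 : ℝ) (2 / 5)) x =
    b * (Real.pi * bl (th (z n).re (z n).im) (2 / 5) / 5 - 49 / 50 * (2 / Real.pi) *
      ((Real.pi * x - (z n).re) * ((z n).im - Real.pi * bl (th (z n).re (z n).im) x))) := by
  have e := mu_two b
  push_cast at e
  rw [X3, BP_eqz h, e]
  ring

theorem rl_eqz (h : Zr (fun i => (a i : ℝ)) chL chR 1 z) (n p : Fin (m + 1)) (x : ℝ) :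
    rl (bw (z n) (z p)) (gdv (UU (xx (z n).re (z n).im) (th (z n).re (z n).im)))
      (qq (UU (xx (z n).re (z n).im) (th (z n).re (z n).im))
        (UU (xx (z p).re (z p).im) (-(th (z p).re (z p).im)))) (th (z n).re (z n).im) x =
    bw (z n) (z p) * (Real.pi * bl (th (z n).re (z n).im) x + (Real.pi / 2 - Real.pi * x) *
      (Real.tan (Real.pi * x) * Real.tanh (Real.pi * bl (th (z n).re (z n).im) x))) -
      (bw (z n) (z p) * (Real.pi / 2 - (z n).re) - (qe (z n) (z p)).im) *
        (Real.tan (Real.pi * x) * Real.tanh (Real.pi * bl (th (z n).re (z n).im) x)) := by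
  have hpi := Real.pi_ne_zero
  have e1 : (z n / (Real.pi : ℂ)).re = (z n).re / Real.pi := by rw [div_ofReal_re]
  rw [gdv_eq_div h, rl, S2l, Tl, e1, mul_div_cancel₀ _ hpi]
  rfl

/-- `23 / 100` replaced by `1 / 5`. -/
theorem im_ge_t2 (h : Zr (fun i => (a i : ℝ)) chL chR 1 z) (k : Fin (m + 1))
    (ht : 1 / 2 ≤ Real.tan (th (z k).re (z k).im))
    (h0 : 1 / 5 * Real.pi ≤ (z k).re) (h1 : (z k).re ≤ 3 / 10 * Real.pi) :
    2377 / 10000 ≤ ((starRingEnd ℂ) (cos (z k))).im := by
  have hpi := Real.pi_pos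
  have hpi2 := Real.pi_gt_three
  obtain ⟨p1, p2, p3⟩ := h.pos k
  have thi0 := h.th_pos_i k
  have thi1 := th_lt p1 p2 p3
  have Ti0 : 0 < Real.tan (th (z k).re (z k).im) :=
    Real.tan_pos_of_pos_of_lt_pi_div_two thi0 thi1
  have ci0 : 0 < Real.cos (z k).re := GeoX_cos_pos p1 p2
  have ti := tan_th_sq p1 p2 p3
  have shi0 : 0 < Real.sinh (z k).im := Real.sinh_pos_iff.2 p3
  have e : Real.sinh (z k).im = Real.tan (th (z k).re (z k).im) * Real.cos (z k).re := by
    have e : Real.sinh (z k).im ^ 2 = (Real.tan (th (z k).re (z k).im) * Real.cos (z k).re) ^ 2 := by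
      rw [mul_pow, ti]
    exact (pow_left_inj₀ shi0.le (by positivity) two_ne_zero).1 e
  have e2 : ((starRingEnd ℂ) (cos (z k))).im =
      Real.tan (th (z k).re (z k).im) * (Real.sin (2 * (z k).re) / 2) := by
    rw [Zr.conj_cos_im, e, Real.sin_two_mul]; ring
  have hs : Real.sin (2 * (3 / 10 * Real.pi)) ≤ Real.sin (2 * (z k).re) := by
    have e3 : Real.sin (2 * (3 / 10 * Real.pi)) = Real.cos (Real.pi / 10) := by
      rw [← Real.cos_sub_pi_div_two]; congr 1; ring
    have e4 : Real.sin (2 * (z k).re) = Real.cos |2 * (z k).re - Real.pi / 2| := by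
      rw [Real.cos_abs, Real.cos_sub_pi_div_two]
    rw [e3, e4]
    apply Real.cos_le_cos_of_nonneg_of_le_pi (abs_nonneg _) (by linarith)
    rw [abs_le]
    constructor <;> linarith
  have hs2 : 9508 / 10000 ≤ Real.sin (2 * (3 / 10 * Real.pi)) := by
    have e3 : Real.sin (2 * (3 / 10 * Real.pi)) = Real.cos (Real.pi / 10) := by
      rw [← Real.cos_sub_pi_div_two]; congr 1; ring
    rw [e3]
    have a2 := Real.pi_lt_d4
    have a1 := Real.cos_le_cos_of_nonneg_of_le_pi (x := Real.pi / 10) (y := 31416 / 100000)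
      (by positivity) (by linarith) (by linarith)
    have a3 := Cl.n_c6 (x := 31416 / 100000) (by norm_num)
    norm_num at a3 a1
    linarith
  rw [e2]
  have : 1 / 2 * (9508 / 10000 / 2) ≤
      Real.tan (th (z k).re (z k).im) * (Real.sin (2 * (z k).re) / 2) :=
    mul_le_mul ht (by linarith) (by norm_num) (by linarith)
  linarith

theorem cos_sq_fifth : 59 / 100 < Real.cos (1 / 5 * Real.pi) ^ 2 := by
  have h1 := Real.pi_lt_d4
  have h2 := Real.pi_pos
  have a1 := Real.cos_le_cos_of_nonneg_of_le_pi (x := 1 / 5 * Real.pi) (y := 62832 / 100000)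
    (by positivity) (by linarith [Real.pi_gt_three]) (by linarith)
  have a3 := Cl.n_c6 (x := 62832 / 100000) (by norm_num)
  norm_num at a3 a1
  nlinarith

/-- An inner `2` next to an inner `2`. -/
theorem adj_t2 (h : Zr (fun i => (a i : ℝ)) chL chR 1 z) (ha : ∀ i, 2 ≤ a i)
    {n p : Fin (m + 1)} (hnp : chL n = some p ∨ chR n = some p) (cn : ¬ clo a n)
    (cp : ¬ clo a p) (en : a n = 2) (ep : a p = 2) :
    1 / 4 ≤ Real.tan (th (z n).re (z n).im) ^ 2 ∧ 1 / 5 * Real.pi < (z n).re ∧
      (z n).re ≤ 3 / 10 * Real.pi := by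
  obtain ⟨k1, k2, -⟩ := h.adj22 three_or (cast2 en) (Cl.inner_of cn en) (cast2 ep)
    (Cl.inner_of cp ep) hnp
  have hpi := Real.pi_gt_three
  obtain ⟨p1, p2, p3⟩ := h.pos n
  refine ⟨k1, ?_, ?_⟩
  · by_contra hc
    push Not at hc
    have c1 := Real.cos_le_cos_of_nonneg_of_le_pi p1.le (by linarith) hc
    have c2 := cos_sq_fifth
    have c3 : 0 < Real.cos (1 / 5 * Real.pi) :=
      Real.cos_pos_of_mem_Ioo ⟨by linarith, by linarith⟩
    have := pow_le_pow_left₀ c3.le c1 2
    linarith
  · obtain ⟨q, hq⟩ := other h hnp cn en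
    by_cases cq : clo a q
    · have hqn : chL n = some q ∨ chR n = some q := by
        rcases hq with ⟨e, e'⟩ | ⟨e, e'⟩
        · exact Or.inr e'
        · exact Or.inl e
      have hpq : p ≠ q := fun e => cp (e ▸ cq)
      exact (Cl.two22_end2 h three_or (isEnd2_of_clo hqn cq) (cast2 en) (Cl.inner_of cn en) hnp
        hpq (cast2 ep) (Cl.inner_of cp ep)).2.2.2.2.1
    · exact reC_of h ha n cn en (by
        intro k hk
        rcases hq with ⟨e, e'⟩ | ⟨e, e'⟩
        · rcases hk with f | f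
          · rw [e] at f; rw [← Option.some.inj f]; exact cp
          · rw [e'] at f; rw [← Option.some.inj f]; exact cq
        · rcases hk with f | f
          · rw [e] at f; rw [← Option.some.inj f]; exact cq
          · rw [e'] at f; rw [← Option.some.inj f]; exact cp)

theorem tan_half {x : ℝ} (h0 : 0 ≤ Real.tan x) (h : 1 / 4 ≤ Real.tan x ^ 2) :
    1 / 2 ≤ Real.tan x := by
  by_contra hc
  push Not at hc
  nlinarith

/-- **The data of a slot.** -/
theorem sl22_of (h : Zr (fun i => (a i : ℝ)) chL chR 1 z) (ha : ∀ i, 2 ≤ a i)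
    {n p : Fin (m + 1)} (hnp : chL n = some p ∨ chR n = some p) (cn : ¬ clo a n)
    (cp : ¬ clo a p) (en : a n = 2) (ep : a p = 2) :
    Sl22 (th (z n).re (z n).im) (th (z p).re (z p).im) (xx (z n).re (z n).im)
      (xx (z p).re (z p).im) (bw (z n) (z p)) (mu (bw (z n) (z p)) (2 : ℝ) (2 / 5)) := by
  have hpi := Real.pi_pos
  have hpn := h.N.symm n p hnp
  obtain ⟨t0, r0, r1⟩ := adj_t2 h ha hnp cn cp en ep
  obtain ⟨t0', r0', r1'⟩ := adj_t2 h ha hpn cp cn ep en
  have ip := Cl.inner_of cp ep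
  have inn := Cl.inner_of cn en
  have hθ := hT_t2 h ha n cn
  have hsh : ∀ x, Real.sinh (Real.pi * bl (th (z n).re (z n).im) x) =
      Real.tan (th (z n).re (z n).im) * Real.cos (Real.pi * x) := fun x => sinh_pi_bl _ _
  have h25 : Real.sinh (Real.pi * bl (th (z n).re (z n).im) (2 / 5)) =
      Real.tan (th (z n).re (z n).im) * Real.cos (2 / 5 * Real.pi) := by
    rw [hsh, mul_comm Real.pi]
  obtain ⟨q, hq⟩ := other h hnp cn en
  by_cases cq : clo a q
  · -- the other neighbour is a closed end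
    have hqn : chL n = some q ∨ chR n = some q := by
      rcases hq with ⟨e, e'⟩ | ⟨e, e'⟩
      · exact Or.inr e'
      · exact Or.inl e
    have hpq : p ≠ q := fun e => cp (e ▸ cq)
    have E := isEnd2_of_clo hqn cq
    obtain ⟨-, -, -, -, -, ht⟩ := Cl.two22_end2 h three_or E (cast2 en) inn hnp hpq
      (cast2 ep) ip
    have tp0 : 0 ≤ Real.tan (th (z p).re (z p).im) := by
      have := hT_t2 h ha p cp
      exact (Real.tan_pos_of_pos_of_lt_pi_div_two this.pos this.lt).le
    have hIm := im_ge_t2 h p (tan_half tp0 t0') r0'.le r1'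
    have X : ∀ x : ℝ, x ≤ 2 / 5 → _ := fun x (hx : x ≤ 2 / 5) =>
      Cl.e3_two_end2 h three_or E (cast2 en) inn hnp hpq (cast2 ep) ip hIm
        (ρ := Real.pi * x) h25 (hsh x) (by nlinarith)
    have W : ∀ x : ℝ, 0 ≤ x → _ := fun x (hx : 0 ≤ x) =>
      Cl.w2_end2 h three_or E (cast2 en) inn hnp hpq (cast2 ep) ip (ρ := Real.pi * x) (hsh x)
        (by positivity)
    have noO : ∀ {P : Prop}, 5779 / 10000 < Real.tan (th (z n).re (z n).im) ^ 2 → P :=
      fun hc => absurd hc (not_lt.2 ht)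
    refine ⟨t0, by linarith, (h.bw_pos hnp).le, j3_of h ha hnp cn cp en, ?_, ?_, ?_, ?_, ?_, ?_,
      ?_, ?_, ?_, ?_, ?_, ?_, ?_⟩
    · intro x hx
      rw [rl_eqz h n p x]
      have x0 : 0 < x := by linarith [hx.1]
      have x1 : x ≤ 2 / 5 := hx.2
      have S0 : 0 ≤ S2l (th (z n).re (z n).im) x := by
        have hb : 0 ≤ bl (th (z n).re (z n).im) x :=
          bl_nonneg hθ.pos.le hθ.lt (by rw [abs_of_pos x0]; linarith)
        have h1 : 0 ≤ Real.tan (Real.pi * x) :=
          Real.tan_nonneg_of_nonneg_of_le_pi_div_two (by positivity) (by nlinarith)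
        have h2 : 0 ≤ Real.tanh (Real.pi * bl (th (z n).re (z n).im) x) :=
          tanh_nonneg_of (by positivity)
        unfold S2l Tl
        exact add_nonneg (by positivity) (mul_nonneg (by nlinarith) (mul_nonneg h1 h2))
      have k : bw (z n) (z p) * (Real.pi * bl (th (z n).re (z n).im) x + (Real.pi / 2 -
          Real.pi * x) * (Real.tan (Real.pi * x) *
            Real.tanh (Real.pi * bl (th (z n).re (z n).im) x))) -
          (bw (z n) (z p) * (Real.pi / 2 - (z n).re) - (qe (z n) (z p)).im) *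
          (Real.tan (Real.pi * x) * Real.tanh (Real.pi * bl (th (z n).re (z n).im) x)) ≤
          4 / 3 * S2l (th (z n).re (z n).im) x := by
        rcases le_total x (8 / 25) with c | c
        · exact Cl.e1b_end2 h three_or E (cast2 en) inn hnp hpq (cast2 ep) ip
            (ρ := Real.pi * x) (by nlinarith [hx.1]) (by nlinarith) (hsh x)
        · have k := Cl.e1_end2 h E (cast2 en) hnp hpq (Or.inl ⟨cast2 ep, ip⟩)
            (ρ := Real.pi * x) (by nlinarith) (by nlinarith [hx.2]) (hsh x)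
          unfold S2l Tl at S0 ⊢
          linarith
      refine k.trans (mul_le_mul_of_nonneg_right ?_ S0)
      unfold cE
      split_ifs <;> norm_num
    · intro x h0 h1
      rw [X3_eqz h]
      exact ⟨fun _ => (X x h1).1 (by nlinarith), noO⟩
    · intro x h0 h1
      rw [X3_eqz h]
      exact ⟨fun _ => (X x h1).2.1 (by nlinarith), noO⟩
    · intro x h0 h1
      rw [X3_eqz h]
      exact ⟨fun _ => (X x h1).2.2.1 (by nlinarith), noO⟩
    · intro x h0 h1
      rw [X3_eqz h]
      exact ⟨fun _ => (X x h1).2.2.2.1 (by nlinarith), noO⟩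
    · intro x h0 h1
      rw [X3_eqz h]
      exact ⟨fun _ => (X x h1).2.2.2.2.1 (by nlinarith), noO⟩
    · intro x h0 h1
      rw [X3_eqz h]
      exact ⟨fun _ => (X x h1).2.2.2.2.2.1 (by nlinarith), noO⟩
    · intro x h0 h1
      rw [X3_eqz h]
      exact ⟨fun _ => (X x h1).2.2.2.2.2.2.1 (by nlinarith), noO⟩
    · intro x h0 h1
      rw [X3_eqz h]
      exact ⟨fun _ => (X x h1).2.2.2.2.2.2.2 (by nlinarith), noO⟩
    · intro x h0 h1
      rw [BP_eqz h]
      exact le_trans (by norm_num) ((W x h0).1 (by nlinarith))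
    · intro x h0 h1 _
      rw [BP_eqz h]
      exact le_trans (by norm_num) ((W x h0).1 (by nlinarith))
    · intro x h0 h1
      rw [BP_eqz h]
      exact le_trans (by norm_num) ((W x h0).2.1 (by nlinarith))
    · intro x h0 h1
      rw [BP_eqz h]
      exact le_trans (by norm_num) ((W x h0).2.2 (by nlinarith))
  · -- both neighbours are open
    have oq := nb_open ha cq
    have X : ∀ x : ℝ, x ≤ 2 / 5 → _ := fun x (hx : x ≤ 2 / 5) =>
      h.e3_two_open three_or (cast2 en) hq (cast2 ep) ip oq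
        (ρ := Real.pi * x) h25 (hsh x) (by nlinarith)
    have X' : ∀ x : ℝ, x ≤ 2 / 5 → _ := fun x (hx : x ≤ 2 / 5) =>
      h.e3b_two_open three_or (cast2 en) hq (cast2 ep) ip oq
        (ρ := Real.pi * x) h25 (hsh x) (by nlinarith)
    have W : ∀ x : ℝ, 0 ≤ x → _ := fun x (hx : 0 ≤ x) =>
      h.bpw_two_open three_or (cast2 en) hq (cast2 ep) ip oq (ρ := Real.pi * x) (hsh x)
        (by positivity)
    have t1 := (h.bp_two_open three_or (cast2 en) hq (cast2 ep) ip oq).2
    refine ⟨t0, t1, (h.bw_pos hnp).le, j3_of h ha hnp cn cp en, ?_, ?_, ?_, ?_, ?_, ?_,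
      ?_, ?_, ?_, ?_, ?_, ?_, ?_⟩
    · intro x hx
      obtain ⟨k1, k2, k3⟩ := h.e1_two_open three_or (cast2 en) hq (cast2 ep) ip oq
        (ρ := Real.pi * x) (hsh x) (by nlinarith [hx.1])
      rw [rl_eqz h n p x]
      unfold cE
      split_ifs with c1 c2
      · exact k1 (by nlinarith)
      · exact k2 (by nlinarith)
      · exact k3 (by nlinarith [hx.2])
    · intro x h0 h1
      rw [X3_eqz h]
      have := (X x h1).1 (by nlinarith)
      exact ⟨fun _ => this.trans (by norm_num), fun _ => this.trans (by norm_num)⟩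
    · intro x h0 h1
      rw [X3_eqz h]
      have := (X x h1).2.1 (by nlinarith)
      exact ⟨fun _ => this.trans (by norm_num), fun _ => this.trans (by norm_num)⟩
    · intro x h0 h1
      rw [X3_eqz h]
      have := (X x h1).2.2.1 (by nlinarith)
      exact ⟨fun _ => this.trans (by norm_num), fun _ => this.trans (by norm_num)⟩
    · intro x h0 h1
      rw [X3_eqz h]
      have := (X x h1).2.2.2.1 (by nlinarith)
      exact ⟨fun _ => this.trans (by norm_num), fun _ => this.trans (by norm_num)⟩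
    · intro x h0 h1
      rw [X3_eqz h]
      have := (X x h1).2.2.2.2.1 (by nlinarith)
      exact ⟨fun _ => this.trans (by norm_num), fun _ => this.trans (by norm_num)⟩
    · intro x h0 h1
      rw [X3_eqz h]
      have := (X x h1).2.2.2.2.2.1 (by nlinarith)
      exact ⟨fun c => ((X' x h1 c).1 (by nlinarith)).trans (by norm_num),
        fun _ => this.trans (by norm_num)⟩
    · intro x h0 h1
      rw [X3_eqz h]
      have := (X x h1).2.2.2.2.2.2.1 (by nlinarith)
      exact ⟨fun c => ((X' x h1 c).2.1 (by nlinarith)).trans (by norm_num),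
        fun _ => this.trans (by norm_num)⟩
    · intro x h0 h1
      rw [X3_eqz h]
      have := (X x h1).2.2.2.2.2.2.2 (by nlinarith)
      exact ⟨fun c => ((X' x h1 c).2.2 (by nlinarith)).trans (by norm_num),
        fun _ => this.trans (by norm_num)⟩
    · intro x h0 h1
      rw [BP_eqz h]
      exact (W x h0).1 (by nlinarith)
    · intro x h0 h1 h2
      rw [BP_eqz h]
      exact le_trans (by norm_num) ((W x h0).2.1 (by nlinarith) h2)
    · intro x h0 h1
      rw [BP_eqz h]
      exact le_trans (by norm_num) ((W x h0).2.2.1 (by nlinarith))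
    · intro x h0 h1
      rw [BP_eqz h]
      exact le_trans (by norm_num) ((W x h0).2.2.2 (by nlinarith))

end Pool.Agent.S3.T2
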