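import Pool.Agent.S3.T.Dat22
import Pool.Agent.S3.T.EndsH
import Pool.Agent.S3.T.FlatF
import Pool.Agent.S3.T.Sl22
import Pool.Agent.S3.W3.Fin22

/-!
# The field `flat` at the edges between two inner vertices with two half twists
-/

set_option autoImplicit false

namespace Pool.Agent.S3.T2

open Complex Pool.Agent.H25.RK Pool.Agent.S3.E

variable {m : ℕ} {a : Fin (m + 1) → ℕ} {z : Fin (m + 1) → ℂ} {Φ : ℂ → ℂ → ℂ}

theorem r22_of (h : Zr (fun i => (a i : ℝ)) chL chR 1 z) (ha : ∀ i, 2 ≤ a i)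
    {n p : Fin (m + 1)} (hnp : chL n = some p ∨ chR n = some p) (cn : ¬ clo a n)
    (cp : ¬ clo a p) (en : a n = 2) (ep : a p = 2) :
    1 / 5 < (gdv (UU (xx (z n).re (z n).im) (th (z n).re (z n).im))).re ∧
      (gdv (UU (xx (z n).re (z n).im) (th (z n).re (z n).im))).re < 31 / 100 := by
  have hpi := Real.pi_pos
  obtain ⟨-, r0, r1⟩ := adj_t2 h ha hnp cn cp en ep
  rw [gdv_re_eq h]
  constructor
  · rw [lt_div_iff₀ hpi]; exact r0
  · rw [div_lt_iff₀ hpi]; nlinarith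

/-- **The data of an edge.** -/
theorem e22_of (h : Zr (fun i => (a i : ℝ)) chL chR 1 z) (ha : ∀ i, 2 ≤ a i)
    (hΦ : IsPhi Φ) (h0 : Φ 0 0 = c00) {n p : Fin (m + 1)}
    (hnp : chL n = some p ∨ chR n = some p) (cn : ¬ clo a n) (cp : ¬ clo a p) (en : a n = 2)
    (ep : a p = 2)
    (hE : EndAll Φ (th (z n).re (z n).im) (th (z p).re (z p).im) (xx (z n).re (z n).im)
      (xx (z p).re (z p).im) (bw (z n) (z p)) (bw (z p) (z n)) (vT a n) (vT a p)
      (mu (bw (z n) (z p)) (a n) (vT a n)) (mu (bw (z p) (z n)) (a p) (vT a p))) :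
    E22 Φ (th (z n).re (z n).im) (th (z p).re (z p).im) (xx (z n).re (z n).im)
      (xx (z p).re (z p).im) (bw (z n) (z p)) (bw (z p) (z n)) := by
  have hpn := h.N.symm n p hnp
  rw [vT_two en, vT_two ep, en, ep] at hE
  push_cast at hE
  exact ⟨d22_of h ha hΦ h0 hnp cn cp en ep, sl22_of h ha hnp cn cp en ep,
    sl22_of h ha hpn cp cn ep en, r22_of h ha hnp cn cp en ep, r22_of h ha hpn cp cn ep en,
    fun v w h1 h2 h3 h4 => (hE v w h1 h2 h3 h4).1⟩

/-- **The field `flat` at an edge 2 - 2.** -/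
theorem flat22_t2 (h : Zr (fun i => (a i : ℝ)) chL chR 1 z) (ha : ∀ i, 2 ≤ a i)
    (hΦ : IsPhi Φ) (h0 : Φ 0 0 = c00) (n p : Fin (m + 1))
    (hnp : chL n = some p ∨ chR n = some p) (cn : ¬ clo a n) (cp : ¬ clo a p) (en : a n = 2)
    (ep : a p = 2) : FlatE Φ a z n p := by
  have k := (e22_of h ha hΦ h0 hnp cn cp en ep
    (ends_all h ha hΦ h0 n p hnp cn cp (Or.inl en))).flat
  unfold FlatE
  rw [vT_two en, vT_two ep, en, ep]
  push_cast
  exact k

end Pool.Agent.S3.T2
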