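import Pool.Agent.S3.W2.Slides23
import Pool.Agent.S3.T.E23
import Pool.Agent.S3.T.FlatF
import Pool.Agent.S3.T.EndsH
import Pool.Agent.S3.Ho.FinT

/-!
# The field `flat` at the edges between two and at least three half twists
-/

set_option autoImplicit false

namespace Pool.Agent.S3.T2

open Complex Pool.Agent.H25.RK Pool.Agent.S3.E

variable {m : ℕ} {a : Fin (m + 1) → ℕ} {z : Fin (m + 1) → ℂ}

/-- **The field `flat` at the edges 2 - (at least 3).** -/
theorem flat23 (h : Zr (fun i => (a i : ℝ)) chL chR 1 z) (ha : ∀ i, 2 ≤ a i)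
    (Ψ : ℂ → ℂ → ℂ) (hΨ : IsPhi Ψ) (h0 : Ψ 0 0 = c00) (n p : Fin (m + 1))
    (hnp : chL n = some p ∨ chR n = some p) (cn : ¬ clo a n) (cp : ¬ clo a p) (en : a n = 2)
    (ep : 3 ≤ a p) : FlatE Ψ a z n p := by
  have D := d23_of h ha hΨ h0 hnp cn cp en ep
  have E := e23_of h ha hnp cn cp en ep
  have hE := ends_all h ha hΨ h0 n p hnp cn cp (Or.inl en)
  unfold FlatE
  rw [vT_two en, vT_three (by omega), en] at hE ⊢
  exact D.flat E hE fun v w hv hv0 hw hw0 hV =>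
    hole_t2 h ha hΨ h0 hnp cn cp en ep (by linarith [E.s3]) hE hv hv0 hw hw0 hV

/-- **The field `flat`**, from the edges 2 - 2. -/
theorem flat_all' (h : Zr (fun i => (a i : ℝ)) chL chR 1 z) (ha : ∀ i, 2 ≤ a i)
    {Φ : ℂ → ℂ → ℂ} (hΦ : IsPhi Φ) (h0 : Φ 0 0 = c00)
    (F22 : ∀ n p : Fin (m + 1), (chL n = some p ∨ chR n = some p) → ¬ clo a n → ¬ clo a p →
      a n = 2 → a p = 2 → FlatE Φ a z n p)
    (n p : Fin (m + 1)) (hnp : chL n = some p ∨ chR n = some p) (cn : ¬ clo a n)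
    (cp : ¬ clo a p) (e : a n = 2 ∨ a p = 2) : FlatE Φ a z n p :=
  flat_all h ha hΦ h0 (flat23 h ha) F22 n p hnp cn cp e

end Pool.Agent.S3.T2
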