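import Pool.Agent.S3.T.Low22
import Pool.Agent.S3.E.J6A

/-!
# The field `flatc`
-/

set_option autoImplicit false

namespace Pool.Agent.S3.T2

open Complex Pool.Agent.S3.E

variable {m : ℕ} {a : Fin (m + 1) → ℕ} {z : Fin (m + 1) → ℂ} {Φ : ℂ → ℂ → ℂ}

/-- Stage 1 at an inner vertex with two open neighbours. -/
theorem stage1_of (h : Zr (fun i => (a i : ℝ)) chL chR 1 z) (ha : ∀ i, 2 ≤ a i)
    {i : Fin (m + 1)} (ci : ¬ clo a i) (e : a i = 2)
    (hk : ∀ k, (chL i = some k ∨ chR i = some k) → ¬ clo a k) :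
    1 / 4 ≤ Real.tan (th (z i).re (z i).im) ^ 2 ∧ Real.cos (z i).re ^ 2 ≤ 59 / 100 ∧
      27 / 50 ≤ k2 (z i).re (z i).im := by
  obtain ⟨l, r, hl, hr⟩ := Cl.inner_of ci e
  exact h.stage1 three_or (cast2 e) (Or.inl ⟨hl, hr⟩) (nb_open ha (hk l (Or.inl hl)))
    (nb_open ha (hk r (Or.inr hr)))

theorem low2_all (h : Zr (fun i => (a i : ℝ)) chL chR 1 z) (ha : ∀ i, 2 ≤ a i) : Low2 a z :=
  low2_of h fun _ ci e hk => (stage1_of h ha ci e hk).2.1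

/-- **The field `flatc`.** -/
theorem flatc_all (h : Zr (fun i => (a i : ℝ)) chL chR 1 z) (ha : ∀ i, 2 ≤ a i)
    (hΦ : IsPhi Φ) (h0 : Φ 0 0 = c00) (n p : Fin (m + 1))
    (hnp : chL n = some p ∨ chR n = some p) (cn : ¬ clo a n) (cp : ¬ clo a p)
    (e : a n = 2 ∨ a p = 2) :
    FlatC (th (z n).re (z n).im) (th (z p).re (z p).im) (xx (z n).re (z n).im)
      (xx (z p).re (z p).im) :=
  flatc_t2 h ha (low2_all h ha) hΦ h0 hnp cn cp e

end Pool.Agent.S3.T2
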