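import Pool.Agent.S3.T.FlatC2
import Pool.Agent.S3.Cl.Pb

/-!
# The lower bound of the abscissa at the inner vertices with two half twists
-/

set_option autoImplicit false

namespace Pool.Agent.S3.T2

open Complex Pool.Agent.S3.E
open Pool.Agent.S3.T (isEnd2_of_clo)

private theorem lw_sin : (18 / 100 : ℝ) < Real.sin (3 * Real.pi / 50) := by
  have h1 := Real.pi_gt_d2
  have h2 := Real.pi_lt_d2
  have h3 := Real.sin_gt_sub_cube (x := 3 * Real.pi / 50) (by positivity)
  have h4 : (3 * Real.pi / 50) ^ 3 ≤ (189 / 1000) ^ 3 :=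
    pow_le_pow_left₀ (by positivity) (by linarith) 3
  norm_num at h4
  linarith

private theorem lw_cos {R : ℝ} (h0 : 0 ≤ R) (h1 : R < 11 / 50 * Real.pi) :
    18 / 100 < Real.cos (2 * R) := by
  have hpi := Real.pi_pos
  have h2 : Real.cos (11 / 25 * Real.pi) ≤ Real.cos (2 * R) :=
    Real.cos_le_cos_of_nonneg_of_le_pi (by linarith) (by linarith) (by linarith)
  have h3 : Real.cos (11 / 25 * Real.pi) = Real.sin (3 * Real.pi / 50) := by
    rw [← Real.cos_pi_div_two_sub]
    congr 1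
    ring
  have := lw_sin
  linarith

/-- From `cos² R ≤ 59/100`. -/
theorem low_of_cos {R : ℝ} (h0 : 0 ≤ R) (h : Real.cos R ^ 2 ≤ 59 / 100) :
    11 / 50 ≤ R / Real.pi := by
  have hpi := Real.pi_pos
  rw [le_div_iff₀ hpi]
  by_contra hc
  push Not at hc
  have h1 := lw_cos h0 hc
  rw [Real.cos_two_mul] at h1
  linarith

private theorem lw_sinh : (835 / 1000 : ℝ) ≤ Real.sinh (39 / 50) := by
  have h1 : (39 / 100 : ℝ) ≤ Real.sinh (39 / 100) := Real.self_le_sinh_iff.mpr (by norm_num)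
  have h2 : (1 + (39 / 100) ^ 2 / 2 : ℝ) ≤ Real.cosh (39 / 100) := by
    have h3 : (39 / 200 : ℝ) ≤ Real.sinh (39 / 200) := Real.self_le_sinh_iff.mpr (by norm_num)
    have h4 := Real.cosh_sq (39 / 200)
    rw [show (39 / 100 : ℝ) = 2 * (39 / 200) by norm_num, Real.cosh_two_mul]
    nlinarith
  have e : Real.sinh (39 / 50) = 2 * Real.sinh (39 / 100) * Real.cosh (39 / 100) := by
    rw [show (39 / 50 : ℝ) = 2 * (39 / 100) by norm_num, Real.sinh_two_mul]
  rw [e]
  nlinarith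

/-- At a closed neighbour. -/
theorem low_end2 {ι : Type*} [Finite ι] {a : ι → ℝ} {nl nr : ι → Option ι} {z : ι → ℂ}
    (h : Zr a nl nr 1 z) {i j : ι} (hj : Zr.IsEnd2 a nl nr j i) (ha : a i = 2)
    (hin : ∃ l r, nl i = some l ∧ nr i = some r) : 11 / 50 ≤ (z i).re / Real.pi := by
  have hpi := Real.pi_pos
  obtain ⟨p1, p2, p3⟩ := h.pos i
  have hx := Cl.xx_ge78_end2 h hj ha hin
  have e := (Cl.ids h i).1
  have hs : (835 / 1000 : ℝ) ≤ Real.sinh (xx (z i).re (z i).im) :=
    lw_sinh.trans (Real.sinh_le_sinh.mpr hx)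
  have c0 : 0 < Real.cos (z i).re := Real.cos_pos_of_mem_Ioo ⟨by linarith, p2⟩
  have s0 : 0 < Real.sin (z i).re := Real.sin_pos_of_pos_of_lt_pi p1 (by linarith)
  have h1 : 835 / 1000 * Real.cos (z i).re ≤ Real.sin (z i).re := by
    have h2 : Real.sin (z i).re * Real.cos (th (z i).re (z i).im) ≤ Real.sin (z i).re := by
      have := Real.cos_le_one (th (z i).re (z i).im)
      nlinarith
    have h3 := mul_le_mul_of_nonneg_right hs c0.le
    linarith
  apply low_of_cos p1.le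
  have h4 := Real.sin_sq_add_cos_sq (z i).re
  have h5 : (835 / 1000 * Real.cos (z i).re) ^ 2 ≤ Real.sin (z i).re ^ 2 :=
    pow_le_pow_left₀ (by positivity) h1 2
  nlinarith

variable {m : ℕ} {a : Fin (m + 1) → ℕ} {z : Fin (m + 1) → ℂ}

/-- The lower bound, from the case of two open neighbours. -/
theorem low2_of (h : Zr (fun i => (a i : ℝ)) chL chR 1 z)
    (ho : ∀ i : Fin (m + 1), ¬ clo a i → a i = 2 →
      (∀ k, (chL i = some k ∨ chR i = some k) → ¬ clo a k) → Real.cos (z i).re ^ 2 ≤ 59 / 100) :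
    Low2 a z := by
  intro n p hnp cn cp e
  by_cases hk : ∀ k, (chL n = some k ∨ chR n = some k) → ¬ clo a k
  · exact low_of_cos (h.pos n).1.le (ho n cn e hk)
  · push Not at hk
    obtain ⟨k, hk1, hk2⟩ := hk
    exact low_end2 h (isEnd2_of_clo hk1 hk2) (cast2 e) (Cl.inner_of cn e)

end Pool.Agent.S3.T2
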