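import Pool.Agent.S3.T.Flat23
import Pool.Agent.S3.T.Flat22
import Pool.Agent.S3.T.Flatc

/-!
# The hypotheses of the last stage at the chains whose vertices have at least two half twists
-/

set_option autoImplicit false

namespace Pool.Agent.S3.T2

open Complex Pool.Agent.H25.RK Pool.Agent.S3.E

/-- **The hypotheses of the last stage.** -/
theorem hyp2 {m : ℕ} {a : Fin (m + 1) → ℕ} {z : Fin (m + 1) → ℂ} {Φ : ℂ → ℂ → ℂ}
    (h : Zr (fun i => (a i : ℝ)) chL chR 1 z) (ha : ∀ i, 2 ≤ a i)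
    (hΦ : IsPhi Φ) (h0 : Φ 0 0 = c00) : Hyp2 Φ a z where
  flat := fun n p hnp cn cp e => flat_all' h ha hΦ h0
    (fun n p hnp cn cp en ep => flat22_t2 h ha hΦ h0 n p hnp cn cp en ep) n p hnp cn cp e
  flatc := fun n p hnp cn cp e => flatc_all h ha hΦ h0 n p hnp cn cp e
  ends := fun n p hnp cn cp e => ends_all h ha hΦ h0 n p hnp cn cp e

end Pool.Agent.S3.T2
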